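import Pool.Agent.H70.SD.Defs
import Pool.Agent.H81.RE.Close

/-!
# The inside lemma (project SD)

In a system without closed walks every nonempty set `U` of vertices has a vertex `u` with
`∑ i, |N i u ∩ U| ≤ 3.36 |U|`.

Proof. If `U = {u}`: `u ∉ N i u` (else `Pth N u u {i}`), so the sum is `0`. If `2 ≤ |U|` suppose not
and apply `Pool.Agent.H81.RE.exists_closed` (with `B = U`) to the multiplicities
`s u y = #{i ∈ I | y ∈ N i u}` if `u, y ∈ U` (and `0` otherwise): it gives a closed walk of positive
length such that at most `T` of its steps have multiplicity `≤ T`, for every `T`. By Hall's theorem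
(as in `Pool.Agent.H81.RD.rainbow_of_closed`: Hall's condition for a set of steps, look at the
step of largest multiplicity) the steps can be given distinct labels, so there is `Pth N v v L` with
`L ⊆ I` nonempty.
-/

set_option autoImplicit false
set_option linter.unusedSectionVars false
set_option linter.unusedVariables false

namespace Pool.Agent.H70.SD

open Finset

variable {V ι : Type} [DecidableEq V] [DecidableEq ι]

/-- a walk given by functions -/
theorem Pth.of_fun {N : ι → V → Finset V} (x : ℕ → V) (c : ℕ → ι) (l : ℕ)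
    (hst : ∀ j < l, x (j + 1) ∈ N (c j) (x j))
    (hc : ∀ a b : ℕ, a < l → b < l → c a = c b → a = b) :
    Pth N (x 0) (x l) ((range l).image c) := by
  induction l with
  | zero => simpa using Pth.nil (N := N) (x 0)
  | succ l ih =>
    have h1 := ih (fun j hj => hst j (by omega)) (fun a b ha hb => hc a b (by omega) (by omega))
    rw [range_add_one, image_insert]
    refine Pth.snoc h1 ?_ (hst l (by omega))
    intro h2
    rw [mem_image] at h2
    obtain ⟨a, ha, h3⟩ := h2
    rw [mem_range] at ha
    have := hc a l (by omega) (by omega) h3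
    omega

theorem inside {N : ι → V → Finset V} {X : Finset V} {I : Finset ι} (hrf : RF N X I)
    {U : Finset V} (hU : U.Nonempty) (hUX : U ⊆ X) :
    ∃ u ∈ U, ∑ i ∈ I, ((N i u ∩ U).card : ℝ) ≤ (84 / 25 : ℝ) * (U.card : ℝ) := by
  classical
  -- no loops
  have hloop : ∀ u ∈ X, ∀ i ∈ I, u ∉ N i u := by
    intro u hu i hi h1
    have h2 := hrf u hu {i} (singleton_subset_iff.mpr hi) (Pth.single h1)
    exact singleton_ne_empty i h2
  by_cases h2 : 2 ≤ U.card
  swap
  · have h1 : U.card = 1 := by
      have := card_pos.mpr hU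
      omega
    obtain ⟨u, rfl⟩ := card_eq_one.mp h1
    refine ⟨u, mem_singleton_self u, ?_⟩
    have h3 : ∑ i ∈ I, ((N i u ∩ {u}).card : ℝ) = 0 := by
      refine sum_eq_zero fun i hi => ?_
      have h4 : N i u ∩ {u} = ∅ := by
        rw [← disjoint_iff_inter_eq_empty, disjoint_singleton_right]
        exact hloop u (hUX (mem_singleton_self u)) i hi
      rw [h4]
      simp
    rw [h3]
    positivity
  by_contra hcon
  push Not at hcon
  obtain ⟨s, hs⟩ : ∃ s : V → V → ℕ, s = fun u y =>
    if u ∈ U ∧ y ∈ U then (I.filter fun i => y ∈ N i u).card else 0 := ⟨_, rfl⟩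
  have hs0 : ∀ u, s u u = 0 := by
    intro u
    rw [hs]
    simp only [and_self]
    split_ifs with h3
    · rw [card_eq_zero, filter_eq_empty_iff]
      exact fun i hi => hloop u (hUX h3) i hi
    · rfl
  have hB : ∀ u ∈ U, (84 / 25 : ℝ) * ((U.card : ℝ) - 1) ≤ ∑ y ∈ U, (s u y : ℝ) := by
    intro u hu
    have h3 : ∑ y ∈ U, (s u y : ℝ) = ∑ i ∈ I, ((N i u ∩ U).card : ℝ) := by
      have e1 : ∀ y ∈ U, (s u y : ℝ) = ∑ i ∈ I, if y ∈ N i u then (1 : ℝ) else 0 := by
        intro y hy
        rw [hs, sum_boole]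
        simp only
        rw [if_pos ⟨hu, hy⟩]
      rw [sum_congr rfl e1, sum_comm]
      refine sum_congr rfl fun i _ => ?_
      rw [sum_boole, inter_comm, ← filter_mem_eq_inter]
    rw [h3]
    have h4 := hcon u hu
    linarith
  obtain ⟨v, M, L, hL, hW, hM⟩ := Pool.Agent.H81.RE.exists_closed hs0 U h2 hB
  obtain ⟨x, hx0, hxL, hst, hcount⟩ := hW.exists_fun
  have hmem : ∀ j < L, x j ∈ U ∧ x (j + 1) ∈ U ∧
      s (x j) (x (j + 1)) = (I.filter fun i => x (j + 1) ∈ N i (x j)).card := by
    intro j hj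
    have h3 := hst j hj
    rw [hs] at h3 ⊢
    simp only at h3 ⊢
    split_ifs at h3 ⊢ with h4
    · exact ⟨h4.1, h4.2, rfl⟩
    · omega
  have hHall := (Finset.all_card_le_biUnion_card_iff_exists_injective
    (fun j : Fin L => I.filter fun i => x ((j : ℕ) + 1) ∈ N i (x j))).mp (by
    intro Y
    rcases Y.eq_empty_or_nonempty with rfl | hY
    · simp
    · obtain ⟨j0, hj0, hmax⟩ := exists_max_image Y
        (fun j : Fin L => s (x j) (x ((j : ℕ) + 1))) hY
      have h3 : Y.card ≤ ((range L).filter (fun j => s (x j) (x (j + 1)) ≤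
          s (x j0) (x ((j0 : ℕ) + 1)))).card := by
        refine card_le_card_of_injOn (fun j : Fin L => (j : ℕ)) ?_ ?_
        · intro j hj
          simp only [coe_filter, mem_range, Set.mem_ofPred_eq]
          exact ⟨j.isLt, hmax j hj⟩
        · intro j _ k _ hjk
          exact Fin.ext hjk
      have h4 := hM (s (x j0) (x ((j0 : ℕ) + 1)))
      have h5 : s (x j0) (x ((j0 : ℕ) + 1)) ≤ (Y.biUnion fun j : Fin L =>
          I.filter fun i => x ((j : ℕ) + 1) ∈ N i (x j)).card := by
        rw [(hmem j0 j0.isLt).2.2]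
        exact card_le_card (subset_biUnion_of_mem (fun j : Fin L =>
          I.filter fun i => x ((j : ℕ) + 1) ∈ N i (x j)) hj0)
      have h6 := hcount (s (x j0) (x ((j0 : ℕ) + 1)))
      omega)
  obtain ⟨c, hc, hcmem⟩ := hHall
  obtain ⟨c', hc'⟩ : ∃ c' : ℕ → ι, ∀ j : ℕ, ∀ h : j < L, c' j = c ⟨j, h⟩ :=
    ⟨fun j => if h : j < L then c ⟨j, h⟩ else c ⟨0, hL⟩, fun j h => by simp [h]⟩
  have hP := Pth.of_fun (N := N) x c' L
    (fun j hj => by
      have h3 := hcmem ⟨j, hj⟩
      rw [mem_filter] at h3
      rw [hc' j hj]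
      exact h3.2)
    (fun a b ha hb hab => by
      rw [hc' a ha, hc' b hb] at hab
      have h3 := hc hab
      simpa using h3)
  have h7 := hrf (x 0) (hUX (hmem 0 hL).1) ((range L).image c') (by
    intro i hi
    rw [mem_image] at hi
    obtain ⟨j, hj, rfl⟩ := hi
    rw [mem_range] at hj
    have h3 := hcmem ⟨j, hj⟩
    rw [mem_filter] at h3
    rw [hc' j hj]
    exact h3.1) (by
    rw [hxL, ← hx0] at hP
    exact hP)
  rw [image_eq_empty, range_eq_empty_iff] at h7
  omega

end Pool.Agent.H70.SD
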