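import Pool.Agent.H70.SD.Pen
import Pool.Agent.H70.SD.Inside

/-!
# The context: all data and all numerical hypotheses; growth from one ball (project SD)

Notation: `n = |V|`, `K = |I0|`, `Q0 = S / K`, `ω = 2 η`, `M = 64 Δ / η^2`, `θ = (1 - 4 η) Q0`.
-/

set_option autoImplicit false
set_option linter.unusedSectionVars false
set_option linter.unusedVariables false

namespace Pool.Agent.H70.SD

open Finset

variable {V ι : Type} [Fintype V] [DecidableEq V] [DecidableEq ι]

/-- all hypotheses on the degrees, the penalty `P` and the numbers -/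
structure Ctx (I0 : Finset ι) (d : ι → V → ℕ) (S Δ m : ℕ) (η z : ℝ) (P : Finset ι → ℝ) :
    Prop where
  hη : 0 < η
  hη1 : η ≤ 1 / 16
  hn : 1 ≤ Fintype.card V
  hΔ : 1 ≤ Δ
  hd : ∀ i ∈ I0, ∀ u, d i u ≤ Δ
  hS : ∀ u, ∑ i ∈ I0, d i u = S
  hS1 : (1 + 16 * η) * Fintype.card V ≤ S
  hS2 : S ≤ m * Δ
  P0 : ∀ J, 0 ≤ P J
  Ptop : P I0 = Fintype.card V
  Pavg : ∀ J, J ⊆ I0 → η * I0.card < J.card → ∑ j ∈ J, P (J.erase j) ≤ J.card * P J
  Pbad : ∀ J, J ⊆ I0 → η * I0.card < J.card → 2 * η * P J < 3 * Fintype.card V →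
    ((bad d S I0.card η J).card : ℝ) ≤ z
  hz0 : 0 ≤ z
  /-- growth -/
  p2 : 84 / 25 * (64 * Δ / η ^ 2) + m * z ≤ η ^ 2 / 2 * Fintype.card V
  p3 : z ≤ η ^ 2 / 32 * Fintype.card V
  p5 : z ≤ 16 * Δ / η
  p6 : 64 * Δ / η ^ 2 + Δ + 1 ≤ η / 16 * Fintype.card V
  p7 : 64 * Δ / η ^ 2 + Δ + 32 * Δ / η < 4 * η * Fintype.card V

/-- the potential of a system -/
noncomputable def Phi (I0 : Finset ι) (S : ℕ) (η : ℝ) (P : Finset ι → ℝ) (X : Finset V)
    (I : Finset ι) : ℝ :=
  ((Fintype.card V : ℝ) - X.card) - (1 - 4 * η) * ((S : ℝ) / I0.card) * ((I0.card : ℝ) - I.card) -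
    2 * η * P I

variable {I0 : Finset ι} {d : ι → V → ℕ} {S Δ m : ℕ} {η z : ℝ} {P : Finset ι → ℝ}

theorem Ctx.npos (c : Ctx I0 d S Δ m η z P) : (1 : ℝ) ≤ Fintype.card V := by
  exact_mod_cast c.hn

theorem Ctx.Δpos (c : Ctx I0 d S Δ m η z P) : (1 : ℝ) ≤ Δ := by
  exact_mod_cast c.hΔ

theorem Ctx.Spos (c : Ctx I0 d S Δ m η z P) : (0 : ℝ) < S := by
  have h1 := c.hS1
  have h2 := c.npos
  have h3 := c.hη
  nlinarith

theorem Ctx.Kpos (c : Ctx I0 d S Δ m η z P) : (0 : ℝ) < I0.card := by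
  have h1 := c.Spos
  obtain ⟨u⟩ : Nonempty V := Fintype.card_pos_iff.mp c.hn
  have h2 := c.hS u
  rcases I0.eq_empty_or_nonempty with h | h
  · rw [h, sum_empty] at h2
    rw [← h2, Nat.cast_zero] at h1
    exact absurd h1 (lt_irrefl 0)
  · exact_mod_cast h.card_pos

theorem Ctx.nS (c : Ctx I0 d S Δ m η z P) : (Fintype.card V : ℝ) ≤ S := by
  have h1 := c.hS1
  have h2 := c.npos
  have h3 := c.hη
  nlinarith

theorem Ctx.SJ (c : Ctx I0 d S Δ m η z P) {J : Finset ι} (hJ : η * I0.card < J.card) :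
    η * S ≤ (S : ℝ) / I0.card * J.card := by
  have h1 := c.Kpos
  have h2 := c.Spos
  rw [div_mul_eq_mul_div, le_div_iff₀ h1]
  nlinarith

/-- `ρ n ≤ η S / ...`: the numerical form of the growth hypothesis used in all steps -/
theorem Ctx.growth (c : Ctx I0 d S Δ m η z P) {J : Finset ι} (hJ : η * I0.card < J.card) :
    84 / 25 * (64 * Δ / η ^ 2) + m * z ≤ η / 2 * ((S : ℝ) / I0.card) * J.card := by
  have h1 := c.SJ hJ
  have h2 := c.nS
  have h3 := c.hη
  have h4 := c.p2
  have h5 : η / 2 * (η * S) ≤ η / 2 * ((S : ℝ) / I0.card * J.card) :=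
    mul_le_mul_of_nonneg_left h1 (by linarith)
  have h6 : η / 2 * (η * Fintype.card V) ≤ η / 2 * (η * S) := by
    apply mul_le_mul_of_nonneg_left _ (by linarith)
    exact mul_le_mul_of_nonneg_left h2 h3.le
  calc 84 / 25 * (64 * Δ / η ^ 2) + m * z ≤ η / 2 * (η * Fintype.card V) := by
        linarith [h4]
    _ ≤ η / 2 * ((S : ℝ) / I0.card * J.card) := h6.trans h5
    _ = _ := by ring

/-- terminal bound: few labels remain -/
theorem Ctx.terminal (c : Ctx I0 d S Δ m η z P) {j : ℝ} (hj : j ≤ η * I0.card) :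
    (Fintype.card V : ℝ) + 64 * Δ / η ^ 2 + Δ + 32 * Δ / η -
      (1 - 4 * η) * ((S : ℝ) / I0.card) * ((I0.card : ℝ) - j) < -(2 * η) * Fintype.card V := by
  have h1 := c.Kpos
  have h2 := c.Spos
  have h3 := c.hη
  have h4 := c.hη1
  have h5 := c.hS1
  have h6 := c.npos
  have h7 := c.p7
  have h8 : (1 - η) * S ≤ (S : ℝ) / I0.card * ((I0.card : ℝ) - j) := by
    rw [div_mul_eq_mul_div, le_div_iff₀ h1]
    nlinarith
  have h9 : (1 - 4 * η) * ((1 - η) * S) ≤
      (1 - 4 * η) * ((S : ℝ) / I0.card * ((I0.card : ℝ) - j)) :=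
    mul_le_mul_of_nonneg_left h8 (by linarith)
  have h10 : (1 - 4 * η) * ((1 - η) * ((1 + 16 * η) * Fintype.card V)) ≤
      (1 - 4 * η) * ((1 - η) * S) := by
    apply mul_le_mul_of_nonneg_left _ (by linarith)
    exact mul_le_mul_of_nonneg_left h5 (by linarith)
  have h11 : (1 + 6 * η) ≤ (1 - 4 * η) * ((1 - η) * (1 + 16 * η)) := by
    nlinarith [mul_pos h3 h3, mul_pos h3 (mul_pos h3 h3)]
  have h12 : (1 + 6 * η) * Fintype.card V ≤
      (1 - 4 * η) * ((1 - η) * (1 + 16 * η)) * Fintype.card V :=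
    mul_le_mul_of_nonneg_right h11 (by linarith)
  have h13 : (1 - 4 * η) * ((S : ℝ) / I0.card) * ((I0.card : ℝ) - j) =
      (1 - 4 * η) * ((S : ℝ) / I0.card * ((I0.card : ℝ) - j)) := by ring
  have h14 : (1 - 4 * η) * ((1 - η) * ((1 + 16 * η) * Fintype.card V)) =
      (1 - 4 * η) * ((1 - η) * (1 + 16 * η)) * Fintype.card V := by ring
  rw [h13]
  rw [h14] at h10
  linarith

/-- the choice of the next label -/
theorem Ctx.pick (c : Ctx I0 d S Δ m η z P) {J : Finset ι} (hJ : J ⊆ I0)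
    (hJc : η * I0.card < J.card) (g : ι → ℝ) (G : ℝ) (hG : G * J.card ≤ ∑ j ∈ J, g j) :
    ∃ j ∈ J, G - 2 * η * P J ≤ g j - 2 * η * P (J.erase j) := by
  have h1 := c.Pavg J hJ hJc
  have h2 := c.hη
  have hne : J.Nonempty := by
    rw [← card_pos]
    have h3 : (0 : ℝ) < J.card := lt_of_le_of_lt (mul_nonneg h2.le (Nat.cast_nonneg _)) hJc
    exact_mod_cast h3
  refine exists_le_of_sum_le hne ?_
  rw [sum_const, nsmul_eq_mul, sum_sub_distrib, ← mul_sum]
  have h3 : 2 * η * ∑ j ∈ J, P (J.erase j) ≤ 2 * η * (J.card * P J) :=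
    mul_le_mul_of_nonneg_left h1 (by linarith)
  linarith

/-- growth from one ball: `B` is a set of vertices containing a vertex which is not bad, `J` is the
set of remaining labels -/
theorem Ctx.grow (c : Ctx I0 d S Δ m η z P) {N : ι → V → Finset V} {X : Finset V}
    {J : Finset ι} (h : Sys d m N X J) {B : Finset V} (hB : B ⊆ X)
    (hne : (B \ bad d S I0.card η J).Nonempty)
    (hz : ((bad d S I0.card η J).card : ℝ) ≤ z) :
    ∃ u ∈ B, (1 - η) * ((S : ℝ) / I0.card) * J.card - 84 / 25 * (B.card : ℝ) - m * z ≤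
      ∑ i ∈ J, ((N i u \ B).card : ℝ) := by
  have hUX : B \ bad d S I0.card η J ⊆ X := sdiff_subset.trans hB
  obtain ⟨u, hu, hin⟩ := inside h.rf hne hUX
  obtain ⟨huB, hub⟩ := mem_sdiff.mp hu
  refine ⟨u, huB, ?_⟩
  -- `u` is not bad
  have h1 : (1 - η) * ((S : ℝ) / I0.card) * J.card ≤ ∑ i ∈ J, (d i u : ℝ) := by
    unfold bad at hub
    rw [mem_filter] at hub
    push Not at hub
    exact hub (mem_univ u)
  have h2 : ((B \ bad d S I0.card η J).card : ℝ) ≤ B.card := by
    exact_mod_cast card_le_card sdiff_subset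
  -- the neighbours in the bad set
  have h3 : ∑ i ∈ J, ((N i u ∩ bad d S I0.card η J).card : ℝ) ≤ m * z := by
    have h4 : ∑ i ∈ J, (N i u ∩ bad d S I0.card η J).card ≤
        m * (bad d S I0.card η J).card := by
      calc ∑ i ∈ J, (N i u ∩ bad d S I0.card η J).card
          = ∑ i ∈ J, ∑ x ∈ bad d S I0.card η J, (if x ∈ N i u then 1 else 0) := by
            refine sum_congr rfl fun i _ => ?_
            rw [← card_filter, filter_mem_eq_inter, inter_comm]
        _ = ∑ x ∈ bad d S I0.card η J, ∑ i ∈ J, (if x ∈ N i u then 1 else 0) := sum_comm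
        _ = ∑ x ∈ bad d S I0.card η J, (J.filter fun i => x ∈ N i u).card := by
            refine sum_congr rfl fun x _ => ?_
            rw [card_filter]
        _ ≤ ∑ x ∈ bad d S I0.card η J, m := sum_le_sum fun x _ => h.mul u (hB huB) x
        _ = m * (bad d S I0.card η J).card := by rw [sum_const, smul_eq_mul, mul_comm]
    have h5 : ∑ i ∈ J, ((N i u ∩ bad d S I0.card η J).card : ℝ) ≤
        m * ((bad d S I0.card η J).card : ℝ) := by exact_mod_cast h4
    exact h5.trans (mul_le_mul_of_nonneg_left hz (Nat.cast_nonneg _))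
  -- one label
  have h4 : ∀ i ∈ J, (d i u : ℝ) ≤ ((N i u \ B).card : ℝ) +
      ((N i u ∩ (B \ bad d S I0.card η J)).card : ℝ) +
      ((N i u ∩ bad d S I0.card η J).card : ℝ) := by
    intro i hi
    have h5 := h.card i hi u (hB huB)
    have h6 : N i u ⊆ (N i u \ B) ∪ (N i u ∩ (B \ bad d S I0.card η J)) ∪
        (N i u ∩ bad d S I0.card η J) := by
      intro x hx
      simp only [mem_union, mem_sdiff, mem_inter]
      tauto
    have h7 := (card_le_card h6).trans ((card_union_le _ _).trans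
      (Nat.add_le_add_right (card_union_le _ _) _))
    rw [h5] at h7
    exact_mod_cast h7
  have h5 := sum_le_sum h4
  rw [sum_add_distrib, sum_add_distrib] at h5
  have h6 : (84 / 25 : ℝ) * ((B \ bad d S I0.card η J).card : ℝ) ≤ 84 / 25 * B.card :=
    mul_le_mul_of_nonneg_left h2 (by norm_num)
  linarith

/-- while many labels remain, `X` is large -/
theorem Ctx.large (c : Ctx I0 d S Δ m η z P) {N : ι → V → Finset V} {X : Finset V}
    {I : Finset ι} (hI : I ⊆ I0) (h : Sys d m N X I)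
    (hX : η / 16 * Fintype.card V ≤ X.card) (hIc : η * I0.card < I.card)
    (hP : 2 * η * P I < 3 * Fintype.card V) : η / 8 * Fintype.card V ≤ X.card := by
  have hb := c.Pbad I hI hIc hP
  have h1 := c.hη
  have h2 := c.hη1
  have h3 := c.npos
  have h4 := c.p3
  have hne : (X \ bad d S I0.card η I).Nonempty := by
    rw [sdiff_nonempty]
    intro hsub
    have h5 : (X.card : ℝ) ≤ (bad d S I0.card η I).card := by exact_mod_cast card_le_card hsub
    have h6 : η ^ 2 / 32 * Fintype.card V < η / 16 * Fintype.card V := by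
      apply mul_lt_mul_of_pos_right _ (by linarith)
      nlinarith
    linarith
  obtain ⟨u, hu, hg⟩ := c.grow h (Subset.refl X) hne hb
  have h5 : ∑ i ∈ I, ((N i u \ X).card : ℝ) = 0 := by
    refine sum_eq_zero fun i hi => ?_
    rw [sdiff_eq_empty_iff_subset.mpr (h.sub i hi u hu), card_empty, Nat.cast_zero]
  rw [h5] at hg
  have h6 := c.SJ hIc
  have h7 := c.hS1
  have h8 := c.p2
  have h9 : (0 : ℝ) ≤ 84 / 25 * (64 * Δ / η ^ 2) := by positivity
  have h10 : (1 - η) * (η * ((1 + 16 * η) * Fintype.card V)) ≤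
      (1 - η) * ((S : ℝ) / I0.card) * I.card := by
    calc (1 - η) * (η * ((1 + 16 * η) * Fintype.card V)) ≤ (1 - η) * (η * S) := by
          apply mul_le_mul_of_nonneg_left _ (by linarith)
          exact mul_le_mul_of_nonneg_left h7 h1.le
      _ ≤ (1 - η) * ((S : ℝ) / I0.card * I.card) :=
          mul_le_mul_of_nonneg_left h6 (by linarith)
      _ = _ := by ring
  have h11 : η * Fintype.card V ≤ (1 - η) * (η * ((1 + 16 * η) * Fintype.card V)) -
      η ^ 2 / 2 * Fintype.card V := by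
    have h12 : η ≤ (1 - η) * (η * (1 + 16 * η)) - η ^ 2 / 2 := by
      nlinarith [mul_pos h1 h1, mul_nonneg (mul_pos h1 h1).le (by linarith : (0 : ℝ) ≤ 1 / 16 - η)]
    have h13 : η * Fintype.card V ≤
        ((1 - η) * (η * (1 + 16 * η)) - η ^ 2 / 2) * Fintype.card V :=
      mul_le_mul_of_nonneg_right h12 (by linarith)
    linarith
  have h14 : 0 ≤ η * (Fintype.card V : ℝ) := by positivity
  linarith

end Pool.Agent.H70.SD
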