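import Mathlib

/-!
# Systems, walks with distinct labels (project SD, MP_ecde8e_co)

`N i u` is the set of out-neighbours of `u` with label `i`. `Pth N u y L` : there is a walk from `u`
to `y` using each label of `L` exactly once (and no other label).
-/

set_option autoImplicit false
set_option linter.unusedSectionVars false
set_option linter.unusedVariables false

namespace Pool.Agent.H70.SD

open Finset

variable {V ι : Type} [DecidableEq V] [DecidableEq ι]

/-- walks with distinct labels -/
inductive Pth (N : ι → V → Finset V) : V → V → Finset ι → Prop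
  | nil (u : V) : Pth N u u ∅
  | snoc {u x y : V} {j : ι} {L : Finset ι} : Pth N u x L → j ∉ L → y ∈ N j x →
      Pth N u y (insert j L)

/-- no closed walk with distinct labels from `I`, except the trivial ones -/
def RF (N : ι → V → Finset V) (X : Finset V) (I : Finset ι) : Prop :=
  ∀ u ∈ X, ∀ L : Finset ι, L ⊆ I → Pth N u u L → L = ∅

/-- systems -/
structure Sys (d : ι → V → ℕ) (m : ℕ) (N : ι → V → Finset V) (X : Finset V) (I : Finset ι) :
    Prop where
  sub : ∀ i ∈ I, ∀ u ∈ X, N i u ⊆ X
  card : ∀ i ∈ I, ∀ u ∈ X, (N i u).card = d i u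
  mul : ∀ u ∈ X, ∀ x : V, (I.filter fun i => x ∈ N i u).card ≤ m
  rf : RF N X I

/-- a family of balls reached with labels of `A` -/
def Balls (N : ι → V → Finset V) (X : Finset V) (A : Finset ι) (B : V → Finset V) : Prop :=
  ∀ v ∈ X, v ∈ B v ∧ B v ⊆ X ∧ ∀ x ∈ B v, ∃ L : Finset ι, L ⊆ A ∧ Pth N v x L

theorem Pth.trans {N : ι → V → Finset V} {u x y : V} {L L' : Finset ι}
    (h : Pth N u x L) (h' : Pth N x y L') (hd : Disjoint L L') : Pth N u y (L ∪ L') := by
  induction h' with
  | nil => simpa using h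
  | @snoc y z j L' _ hj hz ih =>
    rw [disjoint_insert_right] at hd
    rw [union_insert]
    exact Pth.snoc (ih hd.2) (by rw [mem_union, not_or]; exact ⟨hd.1, hj⟩) hz

theorem Pth.single {N : ι → V → Finset V} {u y : V} {j : ι} (h : y ∈ N j u) :
    Pth N u y {j} := by
  have h1 := Pth.snoc (Pth.nil (N := N) u) (notMem_empty j) h
  simpa using h1

theorem Pth.mem {N : ι → V → Finset V} {X : Finset V} {I : Finset ι}
    (hsub : ∀ i ∈ I, ∀ u ∈ X, N i u ⊆ X) {u y : V} {L : Finset ι} (h : Pth N u y L)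
    (hu : u ∈ X) (hL : L ⊆ I) : y ∈ X := by
  induction h with
  | nil => exact hu
  | @snoc x y j L _ _ hy ih =>
    rw [insert_subset_iff] at hL
    exact hsub j hL.1 x (ih hL.2) hy

theorem RF.mono {N : ι → V → Finset V} {X X' : Finset V} {I I' : Finset ι} (h : RF N X I)
    (hX : X' ⊆ X) (hI : I' ⊆ I) : RF N X' I' :=
  fun u hu L hL hp => h u (hX hu) L (hL.trans hI) hp

theorem Sys.mono {d : ι → V → ℕ} {m : ℕ} {N : ι → V → Finset V} {X : Finset V}
    {I I' : Finset ι} (h : Sys d m N X I) (hI : I' ⊆ I) : Sys d m N X I' where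
  sub := fun i hi => h.sub i (hI hi)
  card := fun i hi => h.card i (hI hi)
  mul := fun u hu x => (card_le_card (filter_subset_filter _ hI)).trans (h.mul u hu x)
  rf := h.rf.mono (Subset.refl X) hI

theorem balls_self (N : ι → V → Finset V) (X : Finset V) : Balls N X ∅ fun v => {v} := by
  intro v hv
  refine ⟨mem_singleton_self v, singleton_subset_iff.mpr hv, fun x hx => ?_⟩
  rw [mem_singleton] at hx
  subst hx
  exact ⟨∅, Subset.refl _, Pth.nil x⟩

/-- growth of balls by one new label -/
theorem Balls.grow {N : ι → V → Finset V} {X : Finset V} {I A : Finset ι} {B : V → Finset V}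
    (hsub : ∀ i ∈ I, ∀ u ∈ X, N i u ⊆ X) (h : Balls N X A B) {j : ι} (hj : j ∈ I)
    (hjA : j ∉ A) (W : Finset V) (f : V → V) (hf : ∀ v ∈ W, f v ∈ B v) :
    Balls N X (insert j A) (fun v => if v ∈ W then B v ∪ N j (f v) else B v) := by
  intro v hv
  obtain ⟨h1, h2, h3⟩ := h v hv
  by_cases hW : v ∈ W
  · simp only [hW, if_true]
    refine ⟨mem_union_left _ h1, union_subset h2 (hsub j hj _ (h2 (hf v hW))), fun x hx => ?_⟩
    rcases mem_union.mp hx with hx | hx
    · obtain ⟨L, hL, hp⟩ := h3 x hx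
      exact ⟨L, hL.trans (subset_insert j A), hp⟩
    · obtain ⟨L, hL, hp⟩ := h3 _ (hf v hW)
      exact ⟨insert j L, insert_subset_insert j hL, Pth.snoc hp (fun h => hjA (hL h)) hx⟩
  · simp only [hW, if_false]
    exact ⟨h1, h2, fun x hx => by
      obtain ⟨L, hL, hp⟩ := h3 x hx
      exact ⟨L, hL.trans (subset_insert j A), hp⟩⟩

end Pool.Agent.H70.SD
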