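import Pool.Agent.H70.SD.Defs

/-!
# The deletion lemma (project SD)

Delete `D` (vertices with a walk to `w` with labels of `A`) and the labels of `A ∪ B`; the arcs into
`D` may be replaced by arcs into `R` (vertices with a walk from `w` with labels of `B`).

Proof. (a) `z ∈ R ∩ D`: the walks `w ⇝ z ⇝ w` form a closed walk with labels in `B ∪ A`
(disjoint); it is nonempty as `z ≠ w`. (b) By induction, a walk `x ⇝ y` (label set `L ⊆ I \ (A ∪ B)`,
`x ∈ X \ D`) of the new system is a walk of the old one (same `L`), or there are `u`, `i ∈ L`,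
`e ∈ N i u ∩ D`, `z ∈ R`, and old walks `x ⇝ u` (labels `L₁`), `z ⇝ y` (labels `L₂`) with `L₁, {i}, L₂`
pairwise disjoint subsets of `L`. Induction step (new arc `y → y'` of label `j ∉ L`): an old arc
extends the walk, resp. the second walk; for a rerouted arc (`e' ∈ N j y ∩ D`, `y' ∈ R`) take
`u = y, i = j, e = e', z = y', L₁ = L, L₂ = ∅` in the first case and keep `u, i, e, L₁` and take
`z = y', L₂ = ∅` in the second case. (c) A closed new walk with data as in the second case gives the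
closed old walk `z ⇝ x ⇝ u → e ⇝ w ⇝ z`.
-/

set_option autoImplicit false
set_option linter.unusedSectionVars false
set_option linter.unusedVariables false

namespace Pool.Agent.H70.SD

open Finset

variable {V ι : Type} [DecidableEq V] [DecidableEq ι]

theorem Pth.eq_of_empty {N : ι → V → Finset V} {u y : V} {L : Finset ι} (h : Pth N u y L)
    (hL : L = ∅) : u = y := by
  cases h with
  | nil => rfl
  | snoc _ _ _ => exact absurd hL (insert_ne_empty _ _)

theorem disjoint_RD {N : ι → V → Finset V} {X : Finset V} {I A B : Finset ι} {w : V}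
    {D R : Finset V} (hrf : RF N X I) (hA : A ⊆ I) (hB : B ⊆ I) (hAB : Disjoint A B)
    (hw : w ∈ X) (hD : ∀ v ∈ D, ∃ L : Finset ι, L ⊆ A ∧ Pth N v w L)
    (hR : ∀ z ∈ R, z ≠ w ∧ ∃ L : Finset ι, L ⊆ B ∧ Pth N w z L) :
    Disjoint R D := by
  rw [disjoint_left]
  intro z hzR hzD
  obtain ⟨L₁, hL₁, hp₁⟩ := hD z hzD
  obtain ⟨hzw, L₂, hL₂, hp₂⟩ := hR z hzR
  have hd : Disjoint L₂ L₁ := (hAB.symm.mono_left hL₂).mono_right hL₁
  have h1 := hrf w hw (L₂ ∪ L₁) (union_subset (hL₂.trans hB) (hL₁.trans hA)) (hp₂.trans hp₁ hd)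
  have h2 : L₂ = ∅ := (union_eq_empty.mp h1).1
  rw [h2] at hp₂
  exact hzw (Pth.eq_of_empty hp₂ rfl).symm

theorem walk_cases {N N' : ι → V → Finset V} {X : Finset V} {I' : Finset ι} {D R : Finset V}
    (hN' : ∀ i ∈ I', ∀ u ∈ X \ D, (N' i u = N i u ∧ Disjoint (N i u) D) ∨
      ((N i u ∩ D).Nonempty ∧ N' i u ⊆ (N i u \ D) ∪ R))
    (hsub' : ∀ i ∈ I', ∀ u ∈ X \ D, N' i u ⊆ X \ D)
    {x y : V} {L : Finset ι} (hx : x ∈ X \ D) (hL : L ⊆ I') (h : Pth N' x y L) :
    Pth N x y L ∨ ∃ (u z : V) (i : ι) (L₁ L₂ : Finset ι), (N i u ∩ D).Nonempty ∧ z ∈ R ∧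
      i ∈ L ∧ i ∉ L₁ ∧ i ∉ L₂ ∧ L₁ ⊆ L ∧ L₂ ⊆ L ∧ Disjoint L₁ L₂ ∧
      Pth N x u L₁ ∧ Pth N z y L₂ := by
  have hmem : ∀ {y : V} {L : Finset ι}, L ⊆ I' → Pth N' x y L → y ∈ X \ D :=
    fun hL h => Pth.mem hsub' h hx hL
  induction h with
  | nil => exact Or.inl (Pth.nil _)
  | @snoc y y' j L hp hj hy' ih =>
    have hjI : j ∈ I' := hL (mem_insert_self j L)
    have hLI : L ⊆ I' := (subset_insert j L).trans hL
    have hyX := hmem hLI hp
    have hcase : y' ∈ N j y ∨ ((N j y ∩ D).Nonempty ∧ y' ∈ R) := by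
      rcases hN' j hjI y hyX with h1 | h1
      · left
        rw [h1.1] at hy'
        exact hy'
      · rcases mem_union.mp (h1.2 hy') with h2 | h2
        · left
          exact (mem_sdiff.mp h2).1
        · right
          exact ⟨h1.1, h2⟩
    rcases ih hLI with hold | ⟨u, z, i, L₁, L₂, h1, h2, h3, h4, h5, h6, h7, h8, h9, h10⟩
    · rcases hcase with hc | hc
      · exact Or.inl (Pth.snoc hold hj hc)
      · exact Or.inr ⟨y, y', j, L, ∅, hc.1, hc.2, mem_insert_self j L, hj, notMem_empty j,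
          subset_insert j L, empty_subset _, disjoint_empty_right _, hold, Pth.nil y'⟩
    · have hji : j ≠ i := fun h => hj (h ▸ h3)
      rcases hcase with hc | hc
      · refine Or.inr ⟨u, z, i, L₁, insert j L₂, h1, h2, mem_insert_of_mem h3, h4, ?_,
          h6.trans (subset_insert j L), insert_subset_insert j h7, ?_, h9, ?_⟩
        · rw [mem_insert, not_or]
          exact ⟨hji.symm, h5⟩
        · rw [disjoint_insert_right]
          exact ⟨fun h => hj (h6 h), h8⟩
        · exact Pth.snoc h10 (fun h => hj (h7 h)) hc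
      · exact Or.inr ⟨u, y', i, L₁, ∅, h1, hc.2, mem_insert_of_mem h3, h4, notMem_empty i,
          h6.trans (subset_insert j L), empty_subset _, disjoint_empty_right _, h9, Pth.nil y'⟩

theorem rf_delete {N N' : ι → V → Finset V} {X : Finset V} {I A B : Finset ι} {w : V}
    {D R : Finset V} (hsub : ∀ i ∈ I, ∀ u ∈ X, N i u ⊆ X) (hrf : RF N X I)
    (hA : A ⊆ I) (hB : B ⊆ I) (hAB : Disjoint A B) (hw : w ∈ X) (hDX : D ⊆ X) (hRX : R ⊆ X)
    (hD : ∀ v ∈ D, ∃ L : Finset ι, L ⊆ A ∧ Pth N v w L)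
    (hR : ∀ z ∈ R, z ≠ w ∧ ∃ L : Finset ι, L ⊆ B ∧ Pth N w z L)
    (hN' : ∀ i ∈ I \ (A ∪ B), ∀ u ∈ X \ D, (N' i u = N i u ∧ Disjoint (N i u) D) ∨
      ((N i u ∩ D).Nonempty ∧ N' i u ⊆ (N i u \ D) ∪ R)) :
    (∀ i ∈ I \ (A ∪ B), ∀ u ∈ X \ D, N' i u ⊆ X \ D) ∧ RF N' (X \ D) (I \ (A ∪ B)) := by
  have hRD := disjoint_RD hrf hA hB hAB hw hD hR
  have hsub' : ∀ i ∈ I \ (A ∪ B), ∀ u ∈ X \ D, N' i u ⊆ X \ D := by
    intro i hi u hu x hx
    have hiI := (mem_sdiff.mp hi).1
    have huX := (mem_sdiff.mp hu).1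
    rcases hN' i hi u hu with h1 | h1
    · rw [h1.1] at hx
      exact mem_sdiff.mpr ⟨hsub i hiI u huX hx, fun h => disjoint_left.mp h1.2 hx h⟩
    · rcases mem_union.mp (h1.2 hx) with h2 | h2
      · rw [mem_sdiff] at h2 ⊢
        exact ⟨hsub i hiI u huX h2.1, h2.2⟩
      · exact mem_sdiff.mpr ⟨hRX h2, fun h => disjoint_left.mp hRD h2 h⟩
  refine ⟨hsub', ?_⟩
  intro x hx L hL hp
  have hxX := (mem_sdiff.mp hx).1
  have hLI : L ⊆ I := hL.trans sdiff_subset
  rcases walk_cases hN' hsub' hx hL hp with h | ⟨u, z, i, L₁, L₂, h1, h2, h3, h4, h5, h6, h7, h8, h9, h10⟩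
  · exact hrf x hxX L hLI h
  · exfalso
    obtain ⟨e, he⟩ := h1
    rw [mem_inter] at he
    obtain ⟨LA, hLA, hpA⟩ := hD e he.2
    obtain ⟨-, LB, hLB, hpB⟩ := hR z h2
    have hdis : ∀ l ∈ L, l ∉ A ∪ B := fun l hl => (mem_sdiff.mp (hL hl)).2
    have hiA : Disjoint (insert i L₁) LA := by
      rw [disjoint_left]
      intro l hl hlA
      have hlL : l ∈ L := by
        rcases mem_insert.mp hl with h | h
        · rw [h]; exact h3
        · exact h6 h
      exact hdis l hlL (mem_union_left _ (hLA hlA))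
    -- `x ⇝ u → e ⇝ w`
    have hp1 : Pth N x e (insert i L₁) := Pth.snoc h9 h4 he.1
    have hp2 : Pth N x w (insert i L₁ ∪ LA) := hp1.trans hpA hiA
    have hp3 : Pth N x z ((insert i L₁ ∪ LA) ∪ LB) := by
      refine hp2.trans hpB ?_
      rw [disjoint_union_left]
      refine ⟨?_, (hAB.mono_left hLA).mono_right hLB⟩
      rw [disjoint_left]
      intro l hl hlB
      have hlL : l ∈ L := by
        rcases mem_insert.mp hl with h | h
        · rw [h]; exact h3
        · exact h6 h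
      exact hdis l hlL (mem_union_right _ (hLB hlB))
    have hp4 : Pth N x x (((insert i L₁ ∪ LA) ∪ LB) ∪ L₂) := by
      refine hp3.trans h10 ?_
      rw [disjoint_left]
      intro l hl hl2
      rcases mem_union.mp hl with h | h
      · rcases mem_union.mp h with h | h
        · rcases mem_insert.mp h with h | h
          · rw [h] at hl2
            exact h5 hl2
          · exact disjoint_left.mp h8 h hl2
        · exact hdis l (h7 hl2) (mem_union_left _ (hLA h))
      · exact hdis l (h7 hl2) (mem_union_right _ (hLB h))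
    have hsubI : ((insert i L₁ ∪ LA) ∪ LB) ∪ L₂ ⊆ I := by
      refine union_subset (union_subset (union_subset ?_ (hLA.trans hA)) (hLB.trans hB))
        (h7.trans hLI)
      exact insert_subset (hLI h3) (h6.trans hLI)
    have h11 := hrf x hxX _ hsubI hp4
    have h12 : i ∈ ((insert i L₁ ∪ LA) ∪ LB) ∪ L₂ :=
      mem_union_left _ (mem_union_left _ (mem_union_left _ (mem_insert_self i L₁)))
    rw [h11] at h12
    exact notMem_empty i h12

end Pool.Agent.H70.SD
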