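import Pool.Agent.H70.SD.Defs

/-!
# From a closed walk with distinct labels to a rainbow directed cycle; trimming (project SD)

`exists_cycle`: take a closed walk `Pth N v v L'` with `L' ≠ ∅` and `|L'|` minimal (over all `v`), and
write it with functions `x : ℕ → V`, `c : ℕ → ι` (`Pth.exists_fun`); `|L'| ≥ 2` as there are no loops.
If `x a = x b` with `a < b < |L'|` then the part from `a` to `b` is a shorter closed walk
(`Pth.sub_walk`). Compare `Pool.Agent.H81.RD.exists_simple` and the end of
`Pool.Agent.H81.RD.rainbow_of_closed` (files `Pool/Agent/H81/RD/Walk.lean`, `Main.lean`).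

`exists_trim`: for every `v` the set of pairs `(i, y)` with `y` in a set of `min (outdeg) D` chosen
out-neighbours of `v` in `E i` has at least `S` elements; take a subset with `S` elements.
-/

set_option autoImplicit false
set_option linter.unusedSectionVars false
set_option linter.unusedVariables false

namespace Pool.Agent.H70.SD

open Finset

theorem Pth.exists_fun {V ι : Type} [DecidableEq V] [DecidableEq ι] {N : ι → V → Finset V}
    {u y : V} {L : Finset ι} (h : Pth N u y L) (i0 : ι) :
    ∃ (x : ℕ → V) (c : ℕ → ι), x 0 = u ∧ x L.card = y ∧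
      (∀ j < L.card, x (j + 1) ∈ N (c j) (x j)) ∧ (∀ j < L.card, c j ∈ L) ∧
      ∀ a b : ℕ, a < L.card → b < L.card → c a = c b → a = b := by
  induction h with
  | nil => exact ⟨fun _ => u, fun _ => i0, rfl, rfl, by simp, by simp, by simp⟩
  | @snoc z y j L _ hj hy ih =>
    obtain ⟨x, c, hx0, hxL, hst, hcL, hinj⟩ := ih
    have hcard : (insert j L).card = L.card + 1 := card_insert_of_notMem hj
    rw [hcard]
    refine ⟨fun k => if k ≤ L.card then x k else y, fun k => if k < L.card then c k else j,
      ?_, ?_, ?_, ?_, ?_⟩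
    · simpa using hx0
    · simp
    · intro k hk
      rcases Nat.lt_succ_iff_lt_or_eq.mp hk with h3 | h3
      · have e1 : k + 1 ≤ L.card := h3
        have e2 : k ≤ L.card := h3.le
        simp only [e1, e2, h3, if_true]
        exact hst k h3
      · subst h3
        have e1 : ¬ (L.card + 1 ≤ L.card) := by omega
        simp only [e1, le_refl, lt_irrefl, if_true, if_false]
        rw [hxL]
        exact hy
    · intro k hk
      rcases Nat.lt_succ_iff_lt_or_eq.mp hk with h3 | h3
      · simp only [h3, if_true]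
        exact mem_insert_of_mem (hcL k h3)
      · subst h3
        simp only [lt_irrefl, if_false]
        exact mem_insert_self j L
    · intro a b ha hb hab
      rcases Nat.lt_succ_iff_lt_or_eq.mp ha with h3 | h3 <;>
        rcases Nat.lt_succ_iff_lt_or_eq.mp hb with h4 | h4
      · simp only [h3, h4, if_true] at hab
        exact hinj a b h3 h4 hab
      · subst h4
        simp only [h3, lt_irrefl, if_true, if_false] at hab
        exact absurd (hab ▸ hcL a h3) hj
      · subst h3
        simp only [h4, lt_irrefl, if_true, if_false] at hab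
        exact absurd (hab ▸ hcL b h4) hj
      · rw [h3, h4]

theorem Pth.sub_walk {V ι : Type} [DecidableEq V] [DecidableEq ι] {N : ι → V → Finset V}
    (x : ℕ → V) (c : ℕ → ι) (l : ℕ) (hst : ∀ j < l, x (j + 1) ∈ N (c j) (x j))
    (hc : ∀ a b : ℕ, a < l → b < l → c a = c b → a = b) (a b : ℕ) (hab : a ≤ b) (hb : b ≤ l) :
    ∃ L : Finset ι, L.card = b - a ∧ Pth N (x a) (x b) L := by
  have key : ∀ k : ℕ, a + k ≤ l → Pth N (x a) (x (a + k)) ((Ico a (a + k)).image c) := by
    intro k
    induction k with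
    | zero =>
      intro _
      simpa using Pth.nil (N := N) (x a)
    | succ k ih =>
      intro hk
      have h1 := ih (by omega)
      have h2 : (Ico a (a + (k + 1))).image c = insert (c (a + k)) ((Ico a (a + k)).image c) := by
        have e : Ico a (a + (k + 1)) = insert (a + k) (Ico a (a + k)) := by
          ext z
          simp only [mem_Ico, mem_insert]
          omega
        rw [e, image_insert]
      rw [h2]
      refine Pth.snoc h1 ?_ (hst (a + k) (by omega))
      intro hmem
      obtain ⟨z, hz, hzc⟩ := mem_image.mp hmem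
      rw [mem_Ico] at hz
      have h3 := hc z (a + k) (by omega) (by omega) hzc
      omega
  have h1 := key (b - a) (by omega)
  have e : a + (b - a) = b := by omega
  rw [e] at h1
  refine ⟨_, ?_, h1⟩
  rw [card_image_of_injOn, Nat.card_Ico]
  intro z hz w hw hzw
  rw [mem_coe, mem_Ico] at hz hw
  exact hc z w (by omega) (by omega) hzw

theorem exists_cycle {n t : ℕ} (E : Fin t → Finset (Fin n × Fin n))
    (hE : ∀ i, ∀ p ∈ E i, p.1 ≠ p.2) (N : Fin t → Fin n → Finset (Fin n))
    (hN : ∀ i u y, y ∈ N i u → (u, y) ∈ E i) {u : Fin n} {L : Finset (Fin t)}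
    (h : Pth N u u L) (hL : L ≠ ∅) :
    ∃ m : ℕ, ∃ x : Fin (m + 2) → Fin n, ∃ c : Fin (m + 2) → Fin t,
      Function.Injective x ∧ Function.Injective c ∧
      ∀ j : Fin (m + 2), (x j, x (j + 1)) ∈ E (c j) := by
  classical
  have h' : ∃ k : ℕ, 0 < k ∧ ∃ v : Fin n, ∃ L' : Finset (Fin t), L'.card = k ∧ Pth N v v L' :=
    ⟨L.card, card_pos.mpr (nonempty_iff_ne_empty.mpr hL), u, L, rfl, h⟩
  obtain ⟨hk, v, L', hcard, hP⟩ := Nat.find_spec h'
  have hmin := fun (m : ℕ) (hm : m < Nat.find h') => Nat.find_min h' hm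
  obtain ⟨k, hkdef⟩ : ∃ k, k = Nat.find h' := ⟨_, rfl⟩
  rw [← hkdef] at hk hcard hmin
  have hne : L'.Nonempty := by
    rw [← card_pos, hcard]
    exact hk
  obtain ⟨i0, _⟩ := hne
  obtain ⟨x, c, hx0, hxL, hst, hcL, hinj⟩ := hP.exists_fun i0
  rw [hcard] at hxL hst hcL hinj
  have hk2 : 2 ≤ k := by
    by_contra hcon
    have h1 : k = 1 := by omega
    subst h1
    have h2 := hN _ _ _ (hst 0 (by omega))
    rw [zero_add, hxL, hx0] at h2
    exact hE _ _ h2 rfl
  obtain ⟨m, rfl⟩ : ∃ m, k = m + 2 := ⟨k - 2, by omega⟩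
  have hxinj : ∀ a b : ℕ, a < b → b < m + 2 → x a ≠ x b := by
    intro a b hab hb heq
    obtain ⟨L1, h1, h2⟩ := Pth.sub_walk x c (m + 2) hst hinj a b hab.le hb.le
    rw [← heq] at h2
    exact hmin (b - a) (by omega) ⟨by omega, x a, L1, h1, h2⟩
  refine ⟨m, fun j => x j, fun j => c j, ?_, ?_, ?_⟩
  · intro a b hab
    simp only at hab
    by_contra hne
    rcases lt_or_gt_of_ne (fun h => hne (Fin.ext h) : (a : ℕ) ≠ b) with h1 | h1
    · exact hxinj a b h1 b.isLt hab
    · exact hxinj b a h1 a.isLt hab.symm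
  · intro a b hab
    exact Fin.ext (hinj a b a.isLt b.isLt hab)
  · intro j
    have h2 := hN _ _ _ (hst (j : ℕ) j.isLt)
    have h3 : x ((j : ℕ) + 1) = x ((j + 1 : Fin (m + 2)) : ℕ) := by
      rw [Fin.val_add_one]
      split_ifs with h4
      · rw [h4, Fin.val_last, hx0]
        exact hxL
      · rfl
    show (x (j : ℕ), x ((j + 1 : Fin (m + 2)) : ℕ)) ∈ E (c j)
    rw [← h3]
    exact h2

theorem exists_trim {n t : ℕ} (E : Fin t → Finset (Fin n × Fin n)) (D S : ℕ)
    (hS : ∀ v : Fin n, S ≤ ∑ i, min ((E i).filter fun p => p.1 = v).card D) :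
    ∃ N : Fin t → Fin n → Finset (Fin n), (∀ i u y, y ∈ N i u → (u, y) ∈ E i) ∧
      (∀ i u, (N i u).card ≤ D) ∧ ∀ u, ∑ i, (N i u).card = S := by
  classical
  have h1 : ∀ (i : Fin t) (v : Fin n), ∃ M : Finset (Fin n), (∀ y ∈ M, (v, y) ∈ E i) ∧
      M.card = min ((E i).filter fun p => p.1 = v).card D := by
    intro i v
    have h2 : (((E i).filter fun p => p.1 = v).image Prod.snd).card =
        ((E i).filter fun p => p.1 = v).card := by
      refine card_image_of_injOn ?_
      intro p hp q hq hpq
      rw [mem_coe, mem_filter] at hp hq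
      exact Prod.ext (hp.2.trans hq.2.symm) hpq
    obtain ⟨M, hM, hMc⟩ := exists_subset_card_eq
      (s := ((E i).filter fun p => p.1 = v).image Prod.snd)
      (n := min ((E i).filter fun p => p.1 = v).card D) (by rw [h2]; exact min_le_left _ _)
    refine ⟨M, fun y hy => ?_, hMc⟩
    obtain ⟨p, hp, hpy⟩ := mem_image.mp (hM hy)
    rw [mem_filter] at hp
    rw [← hp.2, ← hpy]
    exact hp.1
  choose M hM hMc using h1
  have h2 : ∀ v : Fin n, ∃ T : Finset ((_ : Fin t) × Fin n),
      T ⊆ (univ.sigma fun i => M i v) ∧ T.card = S := by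
    intro v
    refine exists_subset_card_eq ?_
    rw [card_sigma]
    refine (hS v).trans (le_of_eq ?_)
    exact sum_congr rfl fun i _ => (hMc i v).symm
  choose T hT hTc using h2
  have hsub : ∀ i u, (univ.filter fun y : Fin n => (⟨i, y⟩ : (_ : Fin t) × Fin n) ∈ T u) ⊆ M i u := by
    intro i u y hy
    rw [mem_filter] at hy
    exact (mem_sigma.mp (hT u hy.2)).2
  refine ⟨fun i u => univ.filter fun y : Fin n => (⟨i, y⟩ : (_ : Fin t) × Fin n) ∈ T u, ?_, ?_, ?_⟩
  · intro i u y hy
    exact hM i u y (hsub i u hy)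
  · intro i u
    refine (card_le_card (hsub i u)).trans ?_
    rw [hMc]
    exact min_le_right _ _
  · intro u
    rw [← hTc u, ← card_sigma]
    congr 1
    ext ⟨i, y⟩
    simp

end Pool.Agent.H70.SD
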