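import Pool.Agent.H70.SD.Ctx

/-!
# Phase B (project SD)

Among the pairs `(A, B)` satisfying the first four conclusions (`(∅, {v})` is one of them) take one
with `|A|` maximal. Suppose that it violates the last conclusion and put `J = I \ A`, `Z = bad J`
(`|Z| ≤ z` by `Pbad`), `W = {v ∈ X | |B v| ≤ 2 Δ}`, `Q0 = S / K`. For `v ∈ W \ Z` take `f v ∈ B v` from
`Ctx.grow`: `∑_{i ∈ J} |N i (f v) \ B v| ≥ (1 - η) Q0 |J| - 3.36 * 2 Δ - m z ≥ Q0 |J| / 2` by
`Ctx.growth` (`2 Δ ≤ 64 Δ / η^2`). As `∑_{v ∈ W} a v > η / 2 * Ω` and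
`∑_{v ∈ Z ∩ X} a v ≤ z |X| ≤ 16 Δ / η |X| ≤ η / 4 * Ω`, we get
`∑_{v ∈ W \ Z} a v ∑_{i ∈ J} |N i (f v) \ B v| ≥ η / 8 * Ω Q0 |J|`. By `Ctx.pick` with
`g j = 8 / η / Ω * ∑_{v ∈ W \ Z} a v |N j (f v) \ B v|`, `G = (1 - 4 η) Q0` there is `j ∈ J` such that
`(insert j A, B')`, `B' v = B v ∪ N j (f v)` for `v ∈ W \ Z`, `B' v = B v` otherwise, satisfies the
first four conclusions (`|B' v| ≤ 2 Δ + Δ` for `v ∈ W`). Contradiction.
-/

set_option autoImplicit false
set_option linter.unusedSectionVars false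
set_option linter.unusedVariables false

namespace Pool.Agent.H70.SD

open Finset

variable {V ι : Type} [Fintype V] [DecidableEq V] [DecidableEq ι]
variable {I0 : Finset ι} {d : ι → V → ℕ} {S Δ m : ℕ} {η z : ℝ} {P : Finset ι → ℝ}

theorem Ctx.phaseB (c : Ctx I0 d S Δ m η z P) {N : ι → V → Finset V} {X : Finset V}
    {I : Finset ι} (hI : I ⊆ I0) (h : Sys d m N X I) (hX : 0 < X.card)
    (a : V → ℝ) (ha0 : ∀ v ∈ X, 0 ≤ a v) (ha1 : ∀ v ∈ X, a v ≤ X.card)
    (hΩ : 64 * Δ / η ^ 2 * X.card ≤ ∑ v ∈ X, a v) :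
    ∃ (A : Finset ι) (B : V → Finset V), A ⊆ I ∧ Balls N X A B ∧
      (∀ v ∈ X, (B v).card ≤ 3 * Δ) ∧
      -(2 * η) * P I ≤ 8 / η * ((∑ v ∈ X, a v * (B v).card) / ∑ v ∈ X, a v) -
        (1 - 4 * η) * ((S : ℝ) / I0.card) * A.card - 2 * η * P (I \ A) ∧
      (((I \ A).card : ℝ) ≤ η * I0.card ∨
        ∑ v ∈ X.filter (fun v => (B v).card ≤ 2 * Δ), a v ≤ η / 2 * ∑ v ∈ X, a v ∨
        3 * (Fintype.card V : ℝ) ≤ 2 * η * P (I \ A)) := by
  classical
  have hη := c.hη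
  have hη1 := c.hη1
  have hΔ := c.Δpos
  have hXr : (0 : ℝ) < X.card := by exact_mod_cast hX
  have hM : 0 < 64 * (Δ : ℝ) / η ^ 2 := by positivity
  obtain ⟨Ω, hΩdef⟩ : ∃ Ω, Ω = ∑ v ∈ X, a v := ⟨_, rfl⟩
  rw [← hΩdef] at hΩ ⊢
  have hΩ0 : 0 < Ω := lt_of_lt_of_le (mul_pos hM hXr) hΩ
  -- the first four conclusions
  obtain ⟨p, hp⟩ : ∃ p : Finset ι → (V → Finset V) → Prop, p = fun A B => Balls N X A B ∧
      (∀ v ∈ X, (B v).card ≤ 3 * Δ) ∧
      -(2 * η) * P I ≤ 8 / η * ((∑ v ∈ X, a v * (B v).card) / Ω) -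
        (1 - 4 * η) * ((S : ℝ) / I0.card) * A.card - 2 * η * P (I \ A) := ⟨_, rfl⟩
  have hstart : p ∅ (fun v => {v}) := by
    rw [hp]
    refine ⟨balls_self N X, fun v _ => ?_, ?_⟩
    · have h1 := c.hΔ
      simp only [card_singleton]
      omega
    · simp only [card_singleton, Nat.cast_one, mul_one, card_empty, Nat.cast_zero, mul_zero,
        sdiff_empty, sub_zero]
      rw [← hΩdef, div_self hΩ0.ne', mul_one]
      have h1 : 0 < 8 / η := by positivity
      linarith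
  obtain ⟨A, hA, hmax⟩ := exists_max_image (I.powerset.filter fun A => ∃ B, p A B) card
    ⟨∅, mem_filter.mpr ⟨empty_mem_powerset I, _, hstart⟩⟩
  rw [mem_filter, mem_powerset] at hA
  obtain ⟨hAI, B, hB⟩ := hA
  have hB' := hB
  rw [hp] at hB'
  obtain ⟨hballs, hcard, hpot⟩ := hB'
  refine ⟨A, B, hAI, hballs, hcard, hpot, ?_⟩
  by_contra hcon
  push Not at hcon
  obtain ⟨hJc, hW, hPJ⟩ := hcon
  obtain ⟨J, hJ⟩ : ∃ J, J = I \ A := ⟨_, rfl⟩
  obtain ⟨W, hWdef⟩ : ∃ W, W = X.filter fun v => (B v).card ≤ 2 * Δ := ⟨_, rfl⟩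
  rw [← hJ] at hJc hPJ hpot
  rw [← hWdef] at hW
  have hJI : J ⊆ I := by rw [hJ]; exact sdiff_subset
  have hJ0 : J ⊆ I0 := hJI.trans hI
  obtain ⟨Z, hZ⟩ : ∃ Z, Z = bad d S I0.card η J := ⟨_, rfl⟩
  have hz : ((bad d S I0.card η J).card : ℝ) ≤ z := c.Pbad J hJ0 hJc hPJ
  have hsys : Sys d m N X J := h.mono hJI
  have hWX : W ⊆ X := by rw [hWdef]; exact filter_subset _ _
  obtain ⟨Q, hQ⟩ : ∃ Q : ℝ, Q = (S : ℝ) / I0.card * J.card := ⟨_, rfl⟩
  have hK := c.Kpos
  have hS := c.Spos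
  have hJpos : (0 : ℝ) < J.card := lt_of_le_of_lt (by positivity) hJc
  have hQ0 : 0 < Q := by rw [hQ]; positivity
  have hgr := c.growth hJc
  -- the vertices `f v`
  have hf : ∀ v, ∃ u, v ∈ W \ Z → u ∈ B v ∧
      Q / 2 ≤ ∑ i ∈ J, ((N i u \ B v).card : ℝ) := by
    intro v
    by_cases hv : v ∈ W \ Z
    · obtain ⟨hvW, hvZ⟩ := mem_sdiff.mp hv
      have hvX := hWX hvW
      obtain ⟨h1, h2, -⟩ := hballs v hvX
      have hne : (B v \ bad d S I0.card η J).Nonempty :=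
        ⟨v, mem_sdiff.mpr ⟨h1, by rw [← hZ]; exact hvZ⟩⟩
      obtain ⟨u, hu, hg⟩ := c.grow hsys h2 hne hz
      refine ⟨u, fun _ => ⟨hu, le_trans ?_ hg⟩⟩
      have h3 : ((B v).card : ℝ) ≤ 2 * Δ := by
        rw [hWdef, mem_filter] at hvW
        exact_mod_cast hvW.2
      have h4 : (2 : ℝ) * Δ ≤ 64 * Δ / η ^ 2 := by
        rw [le_div_iff₀ (by positivity)]
        have h5 : η ^ 2 ≤ 1 := by nlinarith
        nlinarith
      have h5 : (1 - η) * ((S : ℝ) / I0.card) * J.card = (1 - η) * Q := by rw [hQ]; ring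
      have h6 : η / 2 * ((S : ℝ) / I0.card) * J.card = η / 2 * Q := by rw [hQ]; ring
      rw [h5]
      rw [h6] at hgr
      nlinarith
    · exact ⟨v, fun h => absurd h hv⟩
  choose f hf using hf
  -- the weight of `W \ Z`
  have hWZ : η / 4 * Ω ≤ ∑ v ∈ W \ Z, a v := by
    have h1 : ∑ v ∈ W, a v = ∑ v ∈ W \ Z, a v + ∑ v ∈ W ∩ Z, a v := by
      rw [← sum_union (disjoint_sdiff_inter W Z), sdiff_union_inter]
    have h2 : ∑ v ∈ W ∩ Z, a v ≤ z * X.card := by
      calc ∑ v ∈ W ∩ Z, a v ≤ ∑ v ∈ W ∩ Z, (X.card : ℝ) :=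
            sum_le_sum fun v hv => ha1 v (hWX (mem_inter.mp hv).1)
        _ = ((W ∩ Z).card : ℝ) * X.card := by rw [sum_const, nsmul_eq_mul]
        _ ≤ z * X.card := by
            apply mul_le_mul_of_nonneg_right _ hXr.le
            refine le_trans ?_ hz
            rw [← hZ]
            exact_mod_cast card_le_card inter_subset_right
    have h3 : z * X.card ≤ η / 4 * Ω := by
      calc z * X.card ≤ 16 * Δ / η * X.card := mul_le_mul_of_nonneg_right c.p5 hXr.le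
        _ = η / 4 * (64 * Δ / η ^ 2 * X.card) := by field_simp; ring
        _ ≤ η / 4 * Ω := mul_le_mul_of_nonneg_left hΩ (by positivity)
    linarith
  have hWZX : W \ Z ⊆ X := sdiff_subset.trans hWX
  -- the total growth
  have htot : η / 8 * Ω * Q ≤ ∑ j ∈ J, ∑ v ∈ W \ Z, a v * ((N j (f v) \ B v).card : ℝ) := by
    rw [sum_comm]
    calc η / 8 * Ω * Q = (η / 4 * Ω) * (Q / 2) := by ring
      _ ≤ (∑ v ∈ W \ Z, a v) * (Q / 2) := mul_le_mul_of_nonneg_right hWZ (by positivity)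
      _ = ∑ v ∈ W \ Z, a v * (Q / 2) := by rw [sum_mul]
      _ ≤ ∑ v ∈ W \ Z, ∑ j ∈ J, a v * ((N j (f v) \ B v).card : ℝ) := by
          refine sum_le_sum fun v hv => ?_
          rw [← mul_sum]
          exact mul_le_mul_of_nonneg_left (hf v hv).2 (ha0 v (hWZX hv))
  have hG : (1 - 4 * η) * ((S : ℝ) / I0.card) * J.card ≤
      ∑ j ∈ J, 8 / η / Ω * ∑ v ∈ W \ Z, a v * ((N j (f v) \ B v).card : ℝ) := by
    rw [← mul_sum]
    calc (1 - 4 * η) * ((S : ℝ) / I0.card) * J.card = (1 - 4 * η) * Q := by rw [hQ]; ring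
      _ ≤ Q := by nlinarith
      _ = 8 / η / Ω * (η / 8 * Ω * Q) := by field_simp
      _ ≤ _ := mul_le_mul_of_nonneg_left htot (by positivity)
  obtain ⟨j, hj, hpick⟩ := c.pick hJ0 hJc _ _ hG
  have hjI : j ∈ I := hJI hj
  have hjA : j ∉ A := by
    rw [hJ] at hj
    exact (mem_sdiff.mp hj).2
  -- the new pair
  have hnew : p (insert j A) (fun v => if v ∈ W \ Z then B v ∪ N j (f v) else B v) := by
    rw [hp]
    refine ⟨hballs.grow h.sub hjI hjA (W \ Z) f fun v hv => (hf v hv).1, fun v hv => ?_, ?_⟩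
    · by_cases hv' : v ∈ W \ Z
      · simp only [hv', if_true]
        have h1 := (hballs v hv).2.1 (hf v hv').1
        have h2 := h.card j hjI (f v) h1
        have h3 := c.hd j (hI hjI) (f v)
        have h4 := (mem_sdiff.mp hv').1
        rw [hWdef, mem_filter] at h4
        have h5 := card_union_le (B v) (N j (f v))
        omega
      · simp only [hv', if_false]
        exact hcard v hv
    · have h1 : I \ insert j A = J.erase j := by
        rw [hJ]
        ext x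
        simp only [mem_sdiff, mem_insert, mem_erase, not_or]
        tauto
      have h2 : ((insert j A).card : ℝ) = A.card + 1 := by
        rw [card_insert_of_notMem hjA]
        push_cast
        ring
      have h3 : ∑ v ∈ X, a v * (((if v ∈ W \ Z then B v ∪ N j (f v) else B v).card : ℕ) : ℝ) =
          ∑ v ∈ X, a v * (B v).card +
            ∑ v ∈ W \ Z, a v * ((N j (f v) \ B v).card : ℝ) := by
        have h4 : ∑ v ∈ W \ Z, a v * ((N j (f v) \ B v).card : ℝ) =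
            ∑ v ∈ X, if v ∈ W \ Z then a v * ((N j (f v) \ B v).card : ℝ) else 0 := by
          rw [← sum_filter, filter_mem_eq_inter, inter_eq_right.mpr hWZX]
        rw [h4, ← sum_add_distrib]
        refine sum_congr rfl fun v _ => ?_
        by_cases hv' : v ∈ W \ Z
        · simp only [hv', if_true]
          rw [← mul_add]
          congr 1
          have h5 : (B v ∪ N j (f v)).card = (B v).card + (N j (f v) \ B v).card := by
            rw [← card_union_of_disjoint disjoint_sdiff, union_sdiff_self_eq_union]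
          rw [h5]
          push_cast
          ring
        · simp only [hv', if_false, add_zero]
      rw [h1, h2, h3, add_div, mul_add]
      have h4 : 8 / η * ((∑ v ∈ W \ Z, a v * ((N j (f v) \ B v).card : ℝ)) / Ω) =
          8 / η / Ω * ∑ v ∈ W \ Z, a v * ((N j (f v) \ B v).card : ℝ) := by
        field_simp
      rw [h4]
      linarith
  have hlast := hmax (insert j A) (mem_filter.mpr
    ⟨mem_powerset.mpr (insert_subset hjI hAI), _, hnew⟩)
  rw [card_insert_of_notMem hjA] at hlast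
  omega

end Pool.Agent.H70.SD
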