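import Pool.Agent.H70.SD.Defs

/-!
# Rerouting with bounded multiplicity (project SD)

One vertex `u`: `F i = N i u`. Proof by induction on the number of `i ∈ I'` with `F i ∩ D`
nonempty (the statement is proved for all `F`). If there is none, take `G = F`. Otherwise let
`i ∈ I'` with `a = |F i ∩ D| > 0`. At most `Δ` elements `x` have multiplicity `≥ m` (their number
times `m` is at most the sum of all multiplicities, which is `∑ |F i| ≤ m Δ`; here `0 < m` as
`F i` is nonempty and the multiplicities are at most `m`). As `|F i \ D| ≤ Δ - a` there is a set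
`T ⊆ R \ F i` with `|T| = a` all of whose elements have multiplicity `< m`
(`Δ - a + Δ + a ≤ 2 Δ ≤ |R|`). Replace `F i` by `(F i \ D) ∪ T`: it is disjoint from `D`, has the
same size, all multiplicities are still at most `m`, and the other `F i'` are not changed.
-/

set_option autoImplicit false
set_option linter.unusedSectionVars false
set_option linter.unusedVariables false

namespace Pool.Agent.H70.SD

open Finset

variable {V ι : Type} [DecidableEq V] [DecidableEq ι]

theorem exists_reroute_one (F : ι → Finset V) (I' : Finset ι) (D R : Finset V)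
    (hRD : Disjoint R D) (Δ m : ℕ) (hc : ∀ i ∈ I', (F i).card ≤ Δ)
    (hsum : ∑ i ∈ I', (F i).card ≤ m * Δ) (hR : 2 * Δ ≤ R.card)
    (hmul : ∀ x : V, (I'.filter fun i => x ∈ F i).card ≤ m) :
    ∃ G : ι → Finset V, (∀ i ∈ I', (G i).card = (F i).card ∧
        ((G i = F i ∧ Disjoint (F i) D) ∨ ((F i ∩ D).Nonempty ∧ G i ⊆ (F i \ D) ∪ R))) ∧
      ∀ x : V, (I'.filter fun i => x ∈ G i).card ≤ m := by
  classical
  induction hk : (I'.filter fun i => (F i ∩ D).Nonempty).card using Nat.strong_induction_on
    generalizing F with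
  | _ k ih =>
  by_cases hne : ∃ i ∈ I', (F i ∩ D).Nonempty
  · obtain ⟨i, hi, hiD⟩ := hne
    have hm : 0 < m := by
      obtain ⟨x, hx⟩ := hiD
      have h1 : 0 < (I'.filter fun i => x ∈ F i).card :=
        Finset.card_pos.2 ⟨i, Finset.mem_filter.2 ⟨hi, (Finset.mem_inter.1 hx).1⟩⟩
      exact lt_of_lt_of_le h1 (hmul x)
    obtain ⟨B, hBdef⟩ : ∃ B, B = R.filter (fun x => m ≤ (I'.filter fun j => x ∈ F j).card) :=
      ⟨_, rfl⟩
    have hB : B.card ≤ Δ := by
      have h1 : m * B.card ≤ m * Δ := by
        calc m * B.card = ∑ x ∈ B, m := by simp [mul_comm]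
          _ ≤ ∑ x ∈ B, (I'.filter fun j => x ∈ F j).card := by
              refine Finset.sum_le_sum fun x hx => ?_
              rw [hBdef] at hx
              exact (Finset.mem_filter.1 hx).2
          _ = ∑ x ∈ B, ∑ j ∈ I', (if x ∈ F j then 1 else 0) := by
              refine Finset.sum_congr rfl fun x _ => ?_
              rw [Finset.card_filter]
          _ = ∑ j ∈ I', ∑ x ∈ B, (if x ∈ F j then 1 else 0) := Finset.sum_comm
          _ ≤ ∑ j ∈ I', (F j).card := by
              refine Finset.sum_le_sum fun j _ => ?_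
              rw [← Finset.card_filter]
              exact Finset.card_le_card fun x hx => (Finset.mem_filter.1 hx).2
          _ ≤ m * Δ := hsum
      exact Nat.le_of_mul_le_mul_left h1 hm
    have hFi : (F i \ D).card + (F i ∩ D).card = (F i).card :=
      Finset.card_sdiff_add_card_inter _ _
    have hRF : (R ∩ F i).card ≤ (F i \ D).card := by
      refine Finset.card_le_card fun x hx => ?_
      have h1 := Finset.mem_inter.1 hx
      exact Finset.mem_sdiff.2 ⟨h1.2, fun h2 => Finset.disjoint_left.1 hRD h1.1 h2⟩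
    have h2 : (R \ F i).card + (R ∩ F i).card = R.card := Finset.card_sdiff_add_card_inter _ _
    have h3 : ((R \ F i) \ B).card + ((R \ F i) ∩ B).card = (R \ F i).card :=
      Finset.card_sdiff_add_card_inter _ _
    have h4 : ((R \ F i) ∩ B).card ≤ B.card := Finset.card_le_card Finset.inter_subset_right
    have h5 := hc i hi
    have h6 : (F i ∩ D).card ≤ ((R \ F i) \ B).card := by omega
    obtain ⟨T, hTs, hTc⟩ := Finset.exists_subset_card_eq h6
    have hTR : ∀ x ∈ T, x ∈ R ∧ x ∉ F i ∧ x ∉ B := fun x hx => by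
      have h7 := Finset.mem_sdiff.1 (hTs hx)
      have h8 := Finset.mem_sdiff.1 h7.1
      exact ⟨h8.1, h8.2, h7.2⟩
    obtain ⟨F', hF'⟩ : ∃ F', F' = Function.update F i ((F i \ D) ∪ T) := ⟨_, rfl⟩
    have hF'i : F' i = (F i \ D) ∪ T := by rw [hF', Function.update_self]
    have hF'j : ∀ j, j ≠ i → F' j = F j := fun j hj => by
      rw [hF', Function.update_of_ne hj]
    have hcard : ∀ j, (F' j).card = (F j).card := by
      intro j
      by_cases hj : j = i
      · subst hj
        rw [hF'i, Finset.card_union_of_disjoint, hTc, hFi]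
        rw [Finset.disjoint_left]
        intro x hx hxT
        exact (hTR x hxT).2.1 (Finset.mem_sdiff.1 hx).1
      · rw [hF'j j hj]
    have hdis : Disjoint (F' i) D := by
      rw [hF'i, Finset.disjoint_left]
      intro x hx hxD
      rcases Finset.mem_union.1 hx with h | h
      · exact (Finset.mem_sdiff.1 h).2 hxD
      · exact Finset.disjoint_left.1 hRD (hTR x h).1 hxD
    have hlt : (I'.filter fun j => (F' j ∩ D).Nonempty).card < k := by
      rw [← hk]
      refine Finset.card_lt_card ((Finset.ssubset_iff_of_subset ?_).2 ⟨i, ?_, ?_⟩)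
      · intro j hj
        have h7 := Finset.mem_filter.1 hj
        by_cases hji : j = i
        · subst hji
          exact Finset.mem_filter.2 ⟨h7.1, hiD⟩
        · rw [hF'j j hji] at h7
          exact Finset.mem_filter.2 h7
      · exact Finset.mem_filter.2 ⟨hi, hiD⟩
      · intro h7
        obtain ⟨x, hx⟩ := (Finset.mem_filter.1 h7).2
        have h8 := Finset.mem_inter.1 hx
        exact Finset.disjoint_left.1 hdis h8.1 h8.2
    have hmul' : ∀ x : V, (I'.filter fun j => x ∈ F' j).card ≤ m := by
      intro x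
      by_cases hxT : x ∈ T
      · have h7 := hTR x hxT
        have h8 : (I'.filter fun j => x ∈ F j).card < m := by
          by_contra h9
          exact h7.2.2 (by rw [hBdef]; exact Finset.mem_filter.2 ⟨h7.1, not_lt.1 h9⟩)
        have h9 : (I'.filter fun j => x ∈ F' j) ⊆ insert i (I'.filter fun j => x ∈ F j) := by
          intro j hj
          have h10 := Finset.mem_filter.1 hj
          by_cases hji : j = i
          · exact Finset.mem_insert.2 (Or.inl hji)
          · rw [hF'j j hji] at h10
            exact Finset.mem_insert.2 (Or.inr (Finset.mem_filter.2 h10))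
        calc (I'.filter fun j => x ∈ F' j).card
            ≤ (insert i (I'.filter fun j => x ∈ F j)).card := Finset.card_le_card h9
          _ ≤ (I'.filter fun j => x ∈ F j).card + 1 := Finset.card_insert_le _ _
          _ ≤ m := h8
      · refine le_trans (Finset.card_le_card fun j hj => ?_) (hmul x)
        have h10 := Finset.mem_filter.1 hj
        by_cases hji : j = i
        · subst hji
          rw [hF'i] at h10
          rcases Finset.mem_union.1 h10.2 with h | h
          · exact Finset.mem_filter.2 ⟨h10.1, (Finset.mem_sdiff.1 h).1⟩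
          · exact absurd h hxT
        · rw [hF'j j hji] at h10
          exact Finset.mem_filter.2 h10
    obtain ⟨G, hG, hGm⟩ := ih _ hlt F' (fun j hj => by rw [hcard j]; exact hc j hj)
      (by rw [Finset.sum_congr rfl fun j _ => hcard j]; exact hsum) hmul' rfl
    refine ⟨G, fun j hj => ?_, hGm⟩
    obtain ⟨g1, g2⟩ := hG j hj
    refine ⟨by rw [g1, hcard j], ?_⟩
    by_cases hji : j = i
    · subst hji
      refine Or.inr ⟨hiD, ?_⟩
      rcases g2 with g | g
      · rw [g.1, hF'i]
        exact Finset.union_subset_union_right fun x hx => (hTR x hx).1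
      · exfalso
        obtain ⟨x, hx⟩ := g.1
        have h8 := Finset.mem_inter.1 hx
        exact Finset.disjoint_left.1 hdis h8.1 h8.2
    · rw [hF'j j hji] at g2
      exact g2
  · refine ⟨F, fun i hi => ⟨rfl, Or.inl ⟨rfl, ?_⟩⟩, hmul⟩
    rw [Finset.disjoint_iff_inter_eq_empty, ← Finset.not_nonempty_iff_eq_empty]
    exact fun h => hne ⟨i, hi, h⟩

/-- all vertices at once -/
theorem exists_reroute (N : ι → V → Finset V) (X : Finset V) (I' : Finset ι) (D R : Finset V)
    (hRD : Disjoint R D) (Δ m : ℕ) (hc : ∀ u ∈ X, ∀ i ∈ I', (N i u).card ≤ Δ)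
    (hsum : ∀ u ∈ X, ∑ i ∈ I', (N i u).card ≤ m * Δ) (hR : 2 * Δ ≤ R.card)
    (hmul : ∀ u ∈ X, ∀ x : V, (I'.filter fun i => x ∈ N i u).card ≤ m) :
    ∃ N' : ι → V → Finset V, ∀ u ∈ X, (∀ i ∈ I', (N' i u).card = (N i u).card ∧
        ((N' i u = N i u ∧ Disjoint (N i u) D) ∨
          ((N i u ∩ D).Nonempty ∧ N' i u ⊆ (N i u \ D) ∪ R))) ∧
      ∀ x : V, (I'.filter fun i => x ∈ N' i u).card ≤ m := by
  classical
  have h : ∀ u : V, ∃ G : ι → Finset V, u ∈ X → (∀ i ∈ I', (G i).card = (N i u).card ∧
        ((G i = N i u ∧ Disjoint (N i u) D) ∨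
          ((N i u ∩ D).Nonempty ∧ G i ⊆ (N i u \ D) ∪ R))) ∧
      ∀ x : V, (I'.filter fun i => x ∈ G i).card ≤ m := by
    intro u
    by_cases hu : u ∈ X
    · obtain ⟨G, hG⟩ := exists_reroute_one (fun i => N i u) I' D R hRD Δ m (hc u hu) (hsum u hu)
        hR (hmul u hu)
      exact ⟨G, fun _ => hG⟩
    · exact ⟨fun _ => ∅, fun h => absurd h hu⟩
  choose G hG using h
  exact ⟨fun i u => G u i, fun u hu => hG u hu⟩

end Pool.Agent.H70.SD
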