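import Pool.Agent.H70.SD.PhA
import Pool.Agent.H70.SD.PhB
import Pool.Agent.H70.SD.Del
import Pool.Agent.H70.SD.Reroute

/-!
# The main induction (project SD)

Induction on `|X|` (all `N`, `I`). Put `K = |I0|`, `Q0 = S / K`, `M = 64 Δ / η^2`. Write `T j` for
`Ctx.terminal` (`n + M + Δ + 32 Δ / η - (1 - 4 η) Q0 (K - j) < -2 η n` if `j ≤ η K`).

(i) `|I| ≤ η K`: `Phi ≤ n - (1 - 4 η) Q0 (K - |I|) < -2 η n` by `T |I|`.
(ii) `3 n ≤ 2 η P I`: `Phi ≤ n - 3 n < -2 η n`.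
(iii) Otherwise `η / 8 n ≤ |X|` by `Ctx.large`. Phase A gives `(A, B)`; let `avg = (∑ |B v|) / |X| ≤ M + Δ`.
  Then `-2 η P I ≤ (1 - η) avg - (1 - 4 η) Q0 |A| - 2 η P (I \ A)`, so
  `Phi ≤ n + avg - (1 - 4 η) Q0 (K - |I \ A|) - 2 η P (I \ A)`. If `|I \ A| ≤ η K` use `T`, if
  `3 n ≤ 2 η P (I \ A)` use `M + Δ < 4 η n ≤ n / 4` (`p7`). Otherwise `M |X| ≤ ∑ |B v|`.
(iv) `a w = |{v ∈ X | w ∈ B v}|`, so `∑_{w ∈ X} a w = ∑_{v ∈ X} |B v|` (double counting). Phase B for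
  the system with labels `I \ A` gives `(A', C)` with `∑ a |C| / ∑ a ≤ 3 Δ`, so
  `-2 η P (I \ A) ≤ 24 Δ / η - (1 - 4 η) Q0 |A'| - 2 η P ((I \ A) \ A')`. The cases
  `|(I \ A) \ A'| ≤ η K` and `3 n ≤ 2 η P ((I \ A) \ A')` are as before.
(v) Otherwise `∑_{w ∈ X, |C w| > 2 Δ} a w ≥ (1 - η / 2) ∑ a`, so some `w ∈ X` has `|C w| > 2 Δ` and
  `a w ≥ (1 - η / 2) avg`. Let `D ⊆ {v ∈ X | w ∈ B v}` with `|D| = ⌈(1 - η / 2) avg⌉₊` (`≥ 1`) and
  `R = (C w).erase w`, `|R| ≥ 2 Δ`. `disjoint_RD`, `exists_reroute` (on `X \ D`, labels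
  `I \ (A ∪ A')`; `∑ |N i u| ≤ S ≤ m Δ`) and `rf_delete` give a system on `X \ D`,
  `I \ (A ∪ A')`. `|D| ≤ M + Δ + 1 ≤ η / 16 n`, so `|X \ D| ≥ η / 16 n`, and
  `Phi (X \ D) (I \ (A ∪ A')) ≥ Phi X I + |D| - (1 - η) avg - 24 Δ / η ≥ Phi X I`, because
  `η / 2 * avg ≥ η / 2 * 64 Δ / η^2 ≥ 24 Δ / η`. Apply the induction hypothesis.
-/

set_option autoImplicit false
set_option linter.unusedSectionVars false
set_option linter.unusedVariables false

namespace Pool.Agent.H70.SD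

open Finset

variable {V ι : Type} [Fintype V] [DecidableEq V] [DecidableEq ι]
variable {I0 : Finset ι} {d : ι → V → ℕ} {S Δ m : ℕ} {η z : ℝ} {P : Finset ι → ℝ}

/-- step (v): the new system -/
theorem Ctx.delete (c : Ctx I0 d S Δ m η z P) {N : ι → V → Finset V} {X : Finset V}
    {I A A' : Finset ι} {B C : V → Finset V} (hI : I ⊆ I0) (h : Sys d m N X I) (hA : A ⊆ I)
    (hA' : A' ⊆ I \ A) (hB : Balls N X A B) (hC : Balls N X A' C) {w : V} (hw : w ∈ X)
    (hCw : 2 * Δ < (C w).card) {D : Finset V} (hD : D ⊆ X.filter fun v => w ∈ B v) :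
    ∃ N' : ι → V → Finset V, Sys d m N' (X \ D) (I \ (A ∪ A')) := by
  classical
  have hDX : D ⊆ X := hD.trans (filter_subset _ _)
  have hAA : Disjoint A A' := disjoint_sdiff.mono_right hA'
  have hA'I : A' ⊆ I := hA'.trans sdiff_subset
  obtain ⟨hwC, hCX, hCL⟩ := hC w hw
  obtain ⟨R, hRdef⟩ : ∃ R, R = (C w).erase w := ⟨_, rfl⟩
  have hRX : R ⊆ X := by rw [hRdef]; exact (erase_subset _ _).trans hCX
  have hRc : 2 * Δ ≤ R.card := by
    rw [hRdef, card_erase_of_mem hwC]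
    omega
  have hDw : ∀ v ∈ D, ∃ L : Finset ι, L ⊆ A ∧ Pth N v w L := fun v hv => by
    have h1 := mem_filter.mp (hD hv)
    exact (hB v h1.1).2.2 w h1.2
  have hR : ∀ z ∈ R, z ≠ w ∧ ∃ L : Finset ι, L ⊆ A' ∧ Pth N w z L := fun z hz => by
    rw [hRdef] at hz
    exact ⟨ne_of_mem_erase hz, hCL z (mem_of_mem_erase hz)⟩
  have hRD : Disjoint R D := disjoint_RD h.rf hA hA'I hAA hw hDw hR
  have hsubI : I \ (A ∪ A') ⊆ I := sdiff_subset
  have hXD : X \ D ⊆ X := sdiff_subset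
  obtain ⟨N', hN'⟩ := exists_reroute N (X \ D) (I \ (A ∪ A')) D R hRD Δ m
    (fun u hu i hi => by
      rw [h.card i (hsubI hi) u (hXD hu)]
      exact c.hd i (hI (hsubI hi)) u)
    (fun u hu => by
      have h1 : ∑ i ∈ I \ (A ∪ A'), (N i u).card = ∑ i ∈ I \ (A ∪ A'), d i u :=
        sum_congr rfl fun i hi => h.card i (hsubI hi) u (hXD hu)
      rw [h1]
      have h2 : ∑ i ∈ I \ (A ∪ A'), d i u ≤ ∑ i ∈ I0, d i u :=
        sum_le_sum_of_subset (hsubI.trans hI)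
      rw [c.hS u] at h2
      exact h2.trans c.hS2) hRc
    (fun u hu x => (card_le_card (filter_subset_filter _ hsubI)).trans (h.mul u (hXD hu) x))
  have hdel := rf_delete h.sub h.rf hA hA'I hAA hw hDX hRX hDw hR
    (N' := N') (fun i hi u hu => ((hN' u hu).1 i hi).2)
  refine ⟨N', ⟨hdel.1, fun i hi u hu => ?_, fun u hu x => (hN' u hu).2 x, hdel.2⟩⟩
  rw [((hN' u hu).1 i hi).1]
  exact h.card i (hsubI hi) u (hXD hu)

theorem Ctx.mainInd (c : Ctx I0 d S Δ m η z P) : ∀ (k : ℕ) (N : ι → V → Finset V) (X : Finset V)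
    (I : Finset ι), X.card = k → I ⊆ I0 → Sys d m N X I →
    η / 16 * Fintype.card V ≤ X.card → Phi I0 S η P X I < -(2 * η) * Fintype.card V := by
  classical
  intro k
  induction k using Nat.strong_induction_on with
  | _ k ih =>
  intro N X I hXk hI h hX
  have hη := c.hη
  have hη1 := c.hη1
  have hΔ := c.Δpos
  have hK := c.Kpos
  have hS := c.Spos
  have hp6 := c.p6
  have hp7 := c.p7
  have hn := c.npos
  have hM0 : (0 : ℝ) ≤ 64 * Δ / η ^ 2 := by positivity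
  have hΔη : (0 : ℝ) ≤ 32 * Δ / η := by positivity
  have hIK : (I.card : ℝ) ≤ I0.card := by exact_mod_cast card_le_card hI
  have hX0 : (0 : ℝ) ≤ X.card := Nat.cast_nonneg _
  have hPI := mul_nonneg (mul_nonneg zero_le_two hη.le) (c.P0 I)
  have hterm0 := fun (j : ℝ) (hj : j ≤ η * I0.card) => c.terminal hj
  have hlarge := c.large hI h hX
  have hphA := c.phaseA hI h
  unfold Phi
  unfold Phi at ih
  obtain ⟨θ, hθ⟩ : ∃ θ : ℝ, θ = (1 - 4 * η) * ((S : ℝ) / I0.card) := ⟨_, rfl⟩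
  have hθ0 : 0 ≤ θ := by
    rw [hθ]
    have h1 : 0 ≤ (S : ℝ) / I0.card := by positivity
    have h2 : 0 ≤ 1 - 4 * η := by linarith
    exact mul_nonneg h2 h1
  rw [← hθ] at hphA ⊢
  simp only [← hθ] at hterm0 ih
  obtain ⟨n, hndef⟩ : ∃ n : ℝ, n = (Fintype.card V : ℝ) := ⟨_, rfl⟩
  rw [← hndef] at hphA hlarge hp6 hp7 hn hX ⊢
  simp only [← hndef] at hterm0 ih
  obtain ⟨M, hMdef⟩ : ∃ M : ℝ, M = 64 * Δ / η ^ 2 := ⟨_, rfl⟩
  rw [← hMdef] at hphA hp6 hp7 hM0
  simp only [← hMdef] at hterm0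
  -- (i)
  rcases le_or_gt (I.card : ℝ) (η * I0.card) with hi | hi
  · have h1 := hterm0 _ hi
    linarith
  -- (ii)
  rcases le_or_gt (3 * n) (2 * η * P I) with hii | hii
  · have h1 : 0 ≤ θ * ((I0.card : ℝ) - I.card) := mul_nonneg hθ0 (by linarith)
    nlinarith
  -- (iii)
  obtain ⟨A, B, hA, hB, hA3, hA4, hA5⟩ := hphA (hlarge hi hii)
  have hXpos : (0 : ℝ) < X.card := lt_of_lt_of_le (by positivity) hX
  have hXposN : 0 < X.card := by exact_mod_cast hXpos
  obtain ⟨sB, hsB⟩ : ∃ sB : ℝ, sB = ∑ v ∈ X, ((B v).card : ℝ) := ⟨_, rfl⟩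
  rw [← hsB] at hA3 hA4 hA5
  obtain ⟨avg, havg⟩ : ∃ avg : ℝ, avg = sB / X.card := ⟨_, rfl⟩
  rw [← havg] at hA4
  have havg0 : 0 ≤ avg := by
    rw [havg]
    have : 0 ≤ sB := by rw [hsB]; positivity
    positivity
  have havg1 : avg ≤ M + Δ := by
    rw [havg, div_le_iff₀ hXpos]
    exact hA3
  have hcA : ((I \ A).card : ℝ) = I.card - A.card := by
    rw [card_sdiff_of_subset hA, Nat.cast_sub (card_le_card hA)]
  have havg2 : (1 - η) * avg ≤ avg := by nlinarith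
  rcases hA5 with hA5 | hA5 | hA5
  · have h1 := hterm0 _ hA5
    rw [hcA] at h1
    have h2 := mul_nonneg (mul_nonneg zero_le_two hη.le) (c.P0 (I \ A))
    linarith
  swap
  · have h1 : 0 ≤ θ * ((I0.card : ℝ) - (I \ A).card) := by
      refine mul_nonneg hθ0 ?_
      rw [hcA]
      have h3 : (0 : ℝ) ≤ A.card := Nat.cast_nonneg _
      linarith
    rw [hcA] at h1
    nlinarith
  -- (iv)
  have hI' : I \ A ⊆ I0 := sdiff_subset.trans hI
  have hsum : ∑ w ∈ X, (((X.filter fun v => w ∈ B v).card : ℕ) : ℝ) = sB := by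
    rw [hsB]
    have h1 : ∀ v ∈ X, ((B v).card : ℝ) = ∑ w ∈ X, if w ∈ B v then (1 : ℝ) else 0 := by
      intro v hv
      rw [sum_boole]
      congr 2
      ext w
      rw [mem_filter]
      exact ⟨fun hw => ⟨(hB v hv).2.1 hw, hw⟩, fun hw => hw.2⟩
    rw [sum_congr rfl h1, sum_comm]
    refine sum_congr rfl fun w _ => ?_
    rw [sum_boole]
  have hphB := c.phaseB hI' (h.mono (sdiff_subset (s := I) (t := A))) hXposN
    (fun w => (((X.filter fun v => w ∈ B v).card : ℕ) : ℝ))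
    (fun v _ => Nat.cast_nonneg _)
    (fun v _ => by exact_mod_cast card_le_card (filter_subset _ _))
    (by
      rw [hsum, ← hMdef]
      exact hA5)
  obtain ⟨A', C, hA', hC, hC3, hB4, hB5⟩ := hphB
  rw [hsum] at hB4 hB5
  rw [← hθ] at hB4
  rw [← hndef] at hB5
  have hsBpos : 0 < sB := lt_of_lt_of_le (by
    rw [hMdef]
    positivity) hA5
  have hC4 : 8 / η * ((∑ v ∈ X, (((X.filter fun u => v ∈ B u).card : ℕ) : ℝ) *
      ((C v).card : ℝ)) / sB) ≤ 24 * Δ / η := by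
    have h1 : ∑ v ∈ X, (((X.filter fun u => v ∈ B u).card : ℕ) : ℝ) * ((C v).card : ℝ) ≤
        sB * (3 * Δ) := by
      rw [← hsum, sum_mul]
      refine sum_le_sum fun v hv => ?_
      refine mul_le_mul_of_nonneg_left ?_ (Nat.cast_nonneg _)
      exact_mod_cast hC3 v hv
    have h2 : (∑ v ∈ X, (((X.filter fun u => v ∈ B u).card : ℕ) : ℝ) * ((C v).card : ℝ)) / sB ≤
        3 * Δ := by
      rw [div_le_iff₀ hsBpos]
      linarith
    calc 8 / η * ((∑ v ∈ X, (((X.filter fun u => v ∈ B u).card : ℕ) : ℝ) *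
        ((C v).card : ℝ)) / sB) ≤ 8 / η * (3 * Δ) :=
          mul_le_mul_of_nonneg_left h2 (by positivity)
      _ = 24 * Δ / η := by ring
  have hcA' : (((I \ A) \ A').card : ℝ) = I.card - A.card - A'.card := by
    rw [card_sdiff_of_subset hA', Nat.cast_sub (card_le_card hA'), hcA]
  have h24 : 24 * Δ / η ≤ 32 * (Δ : ℝ) / η := by
    rw [div_le_div_iff_of_pos_right hη]
    linarith
  rcases hB5 with hB5 | hB5 | hB5
  · have h1 := hterm0 _ hB5
    rw [hcA'] at h1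
    have h2 := mul_nonneg (mul_nonneg zero_le_two hη.le) (c.P0 ((I \ A) \ A'))
    linarith
  swap
  · have h1 : 0 ≤ θ * ((I0.card : ℝ) - ((I \ A) \ A').card) := by
      refine mul_nonneg hθ0 ?_
      rw [hcA']
      have h3 : (0 : ℝ) ≤ A.card := Nat.cast_nonneg _
      have h4 : (0 : ℝ) ≤ A'.card := Nat.cast_nonneg _
      linarith
    rw [hcA'] at h1
    nlinarith
  -- (v)
  have hex : ∃ w ∈ X.filter (fun v => ¬ (C v).card ≤ 2 * Δ),
      (1 - η / 2) * avg ≤ (((X.filter fun v => w ∈ B v).card : ℕ) : ℝ) := by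
    by_contra hcon0
    have hcon : ∀ w ∈ X.filter (fun v => ¬ (C v).card ≤ 2 * Δ),
        (((X.filter fun v => w ∈ B v).card : ℕ) : ℝ) < (1 - η / 2) * avg :=
      fun w hw => lt_of_not_ge fun hle => hcon0 ⟨w, hw, hle⟩
    have h1 := sum_filter_add_sum_filter_not X (fun v => (C v).card ≤ 2 * Δ)
      (fun w => (((X.filter fun v => w ∈ B v).card : ℕ) : ℝ))
    rw [hsum] at h1
    have h2 : ∑ w ∈ X.filter (fun v => ¬ (C v).card ≤ 2 * Δ),
        (((X.filter fun v => w ∈ B v).card : ℕ) : ℝ) ≤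
        ∑ w ∈ X.filter (fun v => ¬ (C v).card ≤ 2 * Δ), (1 - η / 2) * avg :=
      sum_le_sum fun w hw => (hcon w hw).le
    have hpos2 : 0 < (1 - η / 2) * sB := mul_pos (by linarith) hsBpos
    have hne : (X.filter (fun v => ¬ (C v).card ≤ 2 * Δ)).Nonempty := by
      by_contra hemp
      rw [not_nonempty_iff_eq_empty] at hemp
      rw [hemp, sum_empty, add_zero] at h1
      linarith
    have h2' : ∑ w ∈ X.filter (fun v => ¬ (C v).card ≤ 2 * Δ),
        (((X.filter fun v => w ∈ B v).card : ℕ) : ℝ) <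
        ∑ w ∈ X.filter (fun v => ¬ (C v).card ≤ 2 * Δ), (1 - η / 2) * avg :=
      sum_lt_sum_of_nonempty hne fun w hw => hcon w hw
    rw [sum_const, nsmul_eq_mul] at h2'
    have h3 : ((X.filter (fun v => ¬ (C v).card ≤ 2 * Δ)).card : ℝ) ≤ X.card := by
      exact_mod_cast card_le_card (filter_subset _ _)
    have h4 : ((X.filter (fun v => ¬ (C v).card ≤ 2 * Δ)).card : ℝ) * ((1 - η / 2) * avg) ≤
        X.card * ((1 - η / 2) * avg) :=
      mul_le_mul_of_nonneg_right h3 (mul_nonneg (by linarith) havg0)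
    have h5 : (X.card : ℝ) * ((1 - η / 2) * avg) = (1 - η / 2) * sB := by
      rw [havg]
      field_simp
    linarith
  obtain ⟨w, hw, haw⟩ := hex
  rw [mem_filter] at hw
  have hCw : 2 * Δ < (C w).card := by omega
  have hcnt : ⌈(1 - η / 2) * avg⌉₊ ≤ (X.filter fun v => w ∈ B v).card := Nat.ceil_le.mpr haw
  obtain ⟨D, hD, hDc⟩ := exists_subset_card_eq hcnt
  obtain ⟨N', hN'⟩ := c.delete hI h hA hA' hB hC hw.1 hCw hD
  have hDX : D ⊆ X := hD.trans (filter_subset _ _)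
  have havgM : M ≤ avg := by
    rw [havg, le_div_iff₀ hXpos]
    exact hA5
  have hMpos : 1 ≤ M := by
    rw [hMdef, le_div_iff₀ (by positivity)]
    nlinarith
  have hD1 : (1 - η / 2) * avg ≤ D.card := by
    rw [hDc]
    exact Nat.le_ceil _
  have hD2 : (D.card : ℝ) < (1 - η / 2) * avg + 1 := by
    rw [hDc]
    exact Nat.ceil_lt_add_one (mul_nonneg (by linarith) havg0)
  have hcX : ((X \ D).card : ℝ) = X.card - D.card := by
    rw [card_sdiff_of_subset hDX, Nat.cast_sub (card_le_card hDX)]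
  have hDpos : 0 < D.card := by
    have h1 : (0 : ℝ) < D.card := lt_of_lt_of_le (mul_pos (by linarith) (by linarith)) hD1
    exact_mod_cast h1
  have hX8 := hlarge hi hii
  have hnew := ih (X \ D).card (by
      rw [card_sdiff_of_subset hDX]
      omega) N' (X \ D) (I \ (A ∪ A')) rfl (sdiff_subset.trans hI) hN' (by
      rw [hcX]
      nlinarith)
  have hunion : I \ (A ∪ A') = (I \ A) \ A' := by
    rw [sdiff_sdiff_left]
    rfl
  rw [hunion, hcX, hcA'] at hnew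
  have hfin : 24 * Δ / η ≤ η / 2 * avg := by
    have h1 : 24 * Δ / η ≤ η / 2 * M := by
      rw [hMdef, div_le_iff₀ hη]
      have e : η / 2 * (64 * Δ / η ^ 2) * η = 32 * Δ := by
        field_simp
        ring
      rw [e]
      linarith
    have h2 : η / 2 * M ≤ η / 2 * avg := mul_le_mul_of_nonneg_left havgM (by positivity)
    linarith
  nlinarith

theorem Ctx.no_system (c : Ctx I0 d S Δ m η z P) (N : ι → V → Finset V) :
    ¬ Sys d m N univ I0 := by
  intro h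
  have hη := c.hη
  have hη1 := c.hη1
  have hn := c.npos
  have h1 := c.mainInd (univ : Finset V).card N univ I0 rfl (Subset.refl _) h (by
    rw [card_univ]
    nlinarith)
  unfold Phi at h1
  rw [card_univ, c.Ptop] at h1
  simp only [sub_self, mul_zero] at h1
  linarith

end Pool.Agent.H70.SD
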