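import Pool.Agent.H70.SD.Ctx

/-!
# The parameters (project SD)

`x = n / Δ`. From `Δ (1 + log H) ≤ c n`: `x ≥ 1 / c` and `H ≤ exp (c x)`. With `c3 = η^5 / 16`,
`c ≤ c3 / 2`, `z = 3 n / (2 η) exp (- c3 x)`, `m = 3 H + 3 n / Δ + 1 ≤ 3 exp (c3 x / 2) + 3 x + 1`,
and `exp (-y) ≤ 1 / y`, `exp (-y) ≤ 2 / y^2`, `exp (-y) ≤ 6 / y^3` (`y > 0`), all inequalities hold if
`c` is small enough (an explicit small multiple of a power of `η`).
-/

set_option autoImplicit false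
set_option linter.unusedSectionVars false
set_option linter.unusedVariables false

namespace Pool.Agent.H70.SD

open Finset

theorem exists_par (η : ℝ) (hη : 0 < η) (hη1 : η ≤ 1 / 16) :
    ∃ c : ℝ, 0 < c ∧ ∀ n Δ H : ℕ, 1 ≤ Δ → 1 ≤ H → (Δ : ℝ) * (1 + Real.log H) ≤ c * n →
      ∀ z : ℝ, z = 3 * n / (2 * η) * Real.exp (-(η ^ 5 * n / (16 * Δ))) →
      ∀ m : ℕ, m = 3 * H + 3 * n / Δ + 1 →
      84 / 25 * (64 * Δ / η ^ 2) + m * z ≤ η ^ 2 / 2 * n ∧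
      z ≤ η ^ 2 / 32 * n ∧
      z ≤ 16 * Δ / η ∧
      64 * Δ / η ^ 2 + Δ + 1 ≤ η / 16 * n ∧
      64 * Δ / η ^ 2 + Δ + 32 * Δ / η < 4 * η * n := by
  have hk : (0 : ℝ) < η ^ 5 / 16 := by positivity
  obtain ⟨k, hkd⟩ : ∃ k : ℝ, k = η ^ 5 / 16 := ⟨_, rfl⟩
  rw [← hkd] at hk
  have h4 : η ^ 4 ≤ 1 := pow_le_one₀ hη.le (by linarith)
  have hkη : k ≤ η / 16 := by
    rw [hkd]
    nlinarith [mul_le_mul_of_nonneg_left h4 hη.le]
  have hk1 : k ≤ 1 := by linarith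
  obtain ⟨c, hcd⟩ : ∃ c : ℝ, c = η ^ 3 * k ^ 2 / 200 := ⟨_, rfl⟩
  have hc : 0 < c := by rw [hcd]; positivity
  have h3 : η ^ 3 ≤ 1 := pow_le_one₀ hη.le (by linarith)
  have hk2 : k ^ 2 ≤ k := by nlinarith
  have hk2η : k ^ 2 ≤ η / 16 := hk2.trans hkη
  have hck : c ≤ k / 200 := by
    rw [hcd]
    have : η ^ 3 * k ^ 2 ≤ 1 * k := mul_le_mul h3 hk2 (by positivity) (by norm_num)
    linarith
  have hc1 : c ≤ 1 := by linarith
  -- `c / η ^ 2 ≤ η ^ 2 / 3200`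
  have hcη : c ≤ η ^ 4 / 3200 := by
    rw [hcd]
    have : η ^ 3 * k ^ 2 ≤ η ^ 3 * (η / 16) := mul_le_mul_of_nonneg_left hk2η (by positivity)
    nlinarith
  refine ⟨c, hc, ?_⟩
  intro n Δ H hΔ hH hle z hz m hm
  have hΔ1 : (1 : ℝ) ≤ Δ := by exact_mod_cast hΔ
  have hΔ0 : (0 : ℝ) < Δ := by linarith
  have hH1 : (1 : ℝ) ≤ H := by exact_mod_cast hH
  have hlog : 0 ≤ Real.log H := Real.log_nonneg hH1
  have hD : (Δ : ℝ) ≤ c * n := by
    have := mul_nonneg hΔ0.le hlog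
    linarith
  have hn0 : (0 : ℝ) < n := by
    have h : 0 < c * n := by linarith
    exact (pos_iff_pos_of_mul_pos h).1 hc
  obtain ⟨x, hxd⟩ : ∃ x : ℝ, x = n / Δ := ⟨_, rfl⟩
  have hx0 : 0 < x := by rw [hxd]; positivity
  have hxΔ : x * Δ = n := by rw [hxd]; field_simp
  have hcx : 1 + Real.log H ≤ c * x := by
    have h : (Δ : ℝ) * (1 + Real.log H) ≤ Δ * (c * x) := by
      calc (Δ : ℝ) * (1 + Real.log H) ≤ c * n := hle
        _ = Δ * (c * x) := by rw [← hxΔ]; ring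
    exact le_of_mul_le_mul_left h hΔ0
  have hcx1 : 1 ≤ c * x := by linarith
  have hx1 : 1 ≤ x := by nlinarith
  have hHx : (H : ℝ) ≤ Real.exp (k * x / 2) := by
    have h1 : (H : ℝ) = Real.exp (Real.log H) := (Real.exp_log (by linarith)).symm
    rw [h1]
    apply Real.exp_le_exp.mpr
    have : c * x ≤ k / 200 * x := mul_le_mul_of_nonneg_right hck hx0.le
    have h2 : 0 < k * x := mul_pos hk hx0
    linarith
  obtain ⟨v, hvd⟩ : ∃ v : ℝ, v = Real.exp (-(k * x / 2)) := ⟨_, rfl⟩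
  have hv0 : 0 < v := by rw [hvd]; exact Real.exp_pos _
  have hHv : (H : ℝ) * v ≤ 1 := by
    calc (H : ℝ) * v ≤ Real.exp (k * x / 2) * v := mul_le_mul_of_nonneg_right hHx hv0.le
      _ = 1 := by rw [hvd, ← Real.exp_add]; simp
  have hw : Real.exp (-(η ^ 5 * n / (16 * Δ))) = v * v := by
    rw [hvd, ← Real.exp_add]
    congr 1
    rw [hkd, hxd]
    field_simp
    ring
  rw [hw] at hz
  -- `v * x ≤ 2 / k`
  have hvx : v * (k * x) ≤ 2 := by
    have h1 : k * x / 2 + 1 ≤ Real.exp (k * x / 2) := Real.add_one_le_exp _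
    have h2 : v * Real.exp (k * x / 2) = 1 := by rw [hvd, ← Real.exp_add]; simp
    have h3 : v * (k * x / 2 + 1) ≤ v * Real.exp (k * x / 2) :=
      mul_le_mul_of_nonneg_left h1 hv0.le
    nlinarith
  -- `v ≤ 2 c / k`
  have hvk : v * k ≤ 2 * c := by
    have h1 : v * k ≤ v * k * (c * x) := le_mul_of_one_le_right (by positivity) hcx1
    have h2 : v * k * (c * x) = c * (v * (k * x)) := by ring
    have h3 : c * (v * (k * x)) ≤ c * 2 := mul_le_mul_of_nonneg_left hvx hc.le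
    linarith
  -- `x v v ≤ 4 c / k ^ 2`
  have hxvv : x * (v * v) * k ^ 2 ≤ 4 * c := by
    have h1 : x * (v * v) * k ^ 2 = (v * (k * x)) * (v * k) := by ring
    rw [h1]
    have := mul_le_mul hvx hvk (by positivity) (by norm_num)
    linarith
  have hvv : v * v ≤ x * (v * v) := le_mul_of_one_le_left (by positivity) hx1
  have hmr : (m : ℝ) ≤ 3 * H + 3 * x + 1 := by
    have h1 : ((3 * n / Δ : ℕ) : ℝ) ≤ ((3 * n : ℕ) : ℝ) / Δ := Nat.cast_div_le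
    have h2 : ((3 * n : ℕ) : ℝ) / Δ = 3 * x := by rw [hxd]; push_cast; ring
    rw [hm]
    push_cast
    linarith
  have hmv : (m : ℝ) * (v * v) * k ^ 2 ≤ 22 * c := by
    have h1 : (m : ℝ) * (v * v) ≤ (3 * H + 3 * x + 1) * (v * v) :=
      mul_le_mul_of_nonneg_right hmr (by positivity)
    have h2 : (H : ℝ) * v * v ≤ 1 * v := mul_le_mul_of_nonneg_right hHv hv0.le
    have h3 : (m : ℝ) * (v * v) ≤ 3 * v + 4 * (x * (v * v)) := by nlinarith
    have h4 : (m : ℝ) * (v * v) * k ^ 2 ≤ (3 * v + 4 * (x * (v * v))) * k ^ 2 :=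
      mul_le_mul_of_nonneg_right h3 (by positivity)
    have h5 : v * k ^ 2 ≤ v * k := mul_le_mul_of_nonneg_left hk2 hv0.le
    nlinarith
  -- everything in terms of `c`
  have hck2 : c = η ^ 3 * k ^ 2 / 200 := hcd
  have hzn : z = 3 * n / (2 * η) * (v * v) := hz
  have hmz : (m : ℝ) * z ≤ 33 / 200 * η ^ 2 * n := by
    have h1 : (m : ℝ) * z * (2 * η) * k ^ 2 = 3 * n * ((m : ℝ) * (v * v) * k ^ 2) := by
      rw [hzn]; field_simp
    have h2 : 3 * (n : ℝ) * ((m : ℝ) * (v * v) * k ^ 2) ≤ 3 * n * (22 * c) :=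
      mul_le_mul_of_nonneg_left hmv (by positivity)
    have h3 : (m : ℝ) * z * ((2 * η) * k ^ 2) ≤ (33 / 200 * η ^ 2 * n) * ((2 * η) * k ^ 2) := by
      calc (m : ℝ) * z * ((2 * η) * k ^ 2) = (m : ℝ) * z * (2 * η) * k ^ 2 := by ring
        _ ≤ 3 * n * (22 * c) := by rw [h1]; exact h2
        _ = (33 / 200 * η ^ 2 * n) * ((2 * η) * k ^ 2) := by rw [hck2]; ring
    exact le_of_mul_le_mul_right h3 (by positivity)
  have hz2 : z * x ≤ 3 / 100 * η ^ 2 * n := by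
    have h1 : z * x * (2 * η) * k ^ 2 = 3 * n * (x * (v * v) * k ^ 2) := by
      rw [hzn]; field_simp
    have h2 : 3 * (n : ℝ) * (x * (v * v) * k ^ 2) ≤ 3 * n * (4 * c) :=
      mul_le_mul_of_nonneg_left hxvv (by positivity)
    have h3 : z * x * ((2 * η) * k ^ 2) ≤ (3 / 100 * η ^ 2 * n) * ((2 * η) * k ^ 2) := by
      calc z * x * ((2 * η) * k ^ 2) = z * x * (2 * η) * k ^ 2 := by ring
        _ ≤ 3 * n * (4 * c) := by rw [h1]; exact h2
        _ = (3 / 100 * η ^ 2 * n) * ((2 * η) * k ^ 2) := by rw [hck2]; ring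
    exact le_of_mul_le_mul_right h3 (by positivity)
  have hz0 : 0 ≤ z := by rw [hzn]; positivity
  have hzz : z ≤ z * x := le_mul_of_one_le_right hz0 hx1
  have hη2 : (0 : ℝ) < η ^ 2 := by positivity
  have hDη : (Δ : ℝ) / η ^ 2 ≤ η ^ 2 / 3200 * n := by
    rw [div_le_iff₀ hη2]
    calc (Δ : ℝ) ≤ c * n := hD
      _ ≤ η ^ 4 / 3200 * n := mul_le_mul_of_nonneg_right hcη hn0.le
      _ = η ^ 2 / 3200 * n * η ^ 2 := by ring
  have hη21 : η ^ 2 ≤ η := by nlinarith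
  have hΔη : (Δ : ℝ) ≤ Δ / η ^ 2 := by
    rw [le_div_iff₀ hη2]
    nlinarith
  have hΔη1 : (Δ : ℝ) / η ≤ Δ / η ^ 2 :=
    div_le_div_of_nonneg_left hΔ0.le hη2 hη21
  have hηn : η ^ 2 * n ≤ η * n := mul_le_mul_of_nonneg_right hη21 hn0.le
  have hηn0 : 0 < η ^ 2 * n := by positivity
  have e1 : (64 : ℝ) * Δ / η ^ 2 = 64 * (Δ / η ^ 2) := by ring
  have e2 : (32 : ℝ) * Δ / η = 32 * (Δ / η) := by ring
  rw [e1, e2]
  refine ⟨?_, ?_, ?_, ?_, ?_⟩
  · nlinarith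
  · nlinarith
  · -- `z x ≤ 3 / 100 η^2 n`, `n = x Δ`
    have h1 : z * x ≤ (3 / 100 * η ^ 2 * Δ) * x := by
      calc z * x ≤ 3 / 100 * η ^ 2 * n := hz2
        _ = (3 / 100 * η ^ 2 * Δ) * x := by rw [← hxΔ]; ring
    have h2 : z ≤ 3 / 100 * η ^ 2 * Δ := le_of_mul_le_mul_right h1 hx0
    have h3 : (3 : ℝ) / 100 * η ^ 2 * Δ ≤ 16 * Δ / η := by
      rw [le_div_iff₀ hη]
      have h4 : η ^ 2 * Δ * η ≤ 1 * Δ := by
        have : η ^ 2 * Δ * η = η ^ 3 * Δ := by ring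
        rw [this]
        exact mul_le_mul_of_nonneg_right h3 hΔ0.le
      nlinarith
    exact h2.trans h3
  · nlinarith
  · nlinarith

/-- the context exists (`Fintype.card (Fin n) = n`). `2 ≤ η * t` for `exists_pen`: `n ≤ S ≤ t Δ` and
`64 Δ / η^2 ≤ η / 16 * n`. `Pbad`: from the last conclusion of `exists_pen`, `n ≤ S` and
`2 η P J < 3 n`. -/
theorem exists_ctx (η : ℝ) (hη : 0 < η) (hη1 : η ≤ 1 / 16) :
    ∃ c : ℝ, 0 < c ∧ ∀ n t Δ H : ℕ, 1 ≤ n → 1 ≤ Δ → 1 ≤ H →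
      (Δ : ℝ) * (1 + Real.log H) ≤ c * n →
      ∀ (d : Fin t → Fin n → ℕ) (S : ℕ), (∀ i u, d i u ≤ Δ) →
      (∀ u, ∑ i, d i u = S) → (1 + 16 * η) * n ≤ S → S ≤ 3 * n →
      ∃ (z : ℝ) (P : Finset (Fin t) → ℝ),
        Ctx (univ : Finset (Fin t)) d S Δ (3 * H + 3 * n / Δ + 1) η z P := by
  obtain ⟨c, hc, hpar⟩ := exists_par η hη hη1
  refine ⟨c, hc, ?_⟩
  intro n t Δ H hn hΔ hH hle d S hd hS hS1 hS3
  obtain ⟨q2, q3, q5, q6, q7⟩ := hpar n Δ H hΔ hH hle _ rfl _ rfl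
  have hΔ1 : (1 : ℝ) ≤ Δ := by exact_mod_cast hΔ
  have hΔ0 : (0 : ℝ) < Δ := by linarith
  have hn1 : (1 : ℝ) ≤ n := by exact_mod_cast hn
  have hnS : (n : ℝ) ≤ S := by nlinarith
  have hStΔ : (S : ℝ) ≤ t * Δ := by
    have h1 : S ≤ t * Δ := by
      rw [← hS ⟨0, hn⟩]
      calc ∑ i, d i ⟨0, hn⟩ ≤ ∑ _i : Fin t, Δ := sum_le_sum fun i _ => hd i _
        _ = t * Δ := by simp
    exact_mod_cast h1
  have hK : 2 ≤ η * ((univ : Finset (Fin t)).card : ℝ) := by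
    rw [card_univ, Fintype.card_fin]
    have hη2 : (0 : ℝ) < η ^ 2 := by positivity
    have h1 : (64 : ℝ) * Δ / η ^ 2 ≤ η / 16 * (t * Δ) := by
      have : η / 16 * (n : ℝ) ≤ η / 16 * (t * Δ) :=
        mul_le_mul_of_nonneg_left (hnS.trans hStΔ) (by positivity)
      linarith
    have h2 : (64 : ℝ) * Δ ≤ 64 * Δ / η ^ 2 := by
      rw [le_div_iff₀ hη2]
      have : η ^ 2 ≤ 1 := by nlinarith
      nlinarith
    have h3 : 2 * (Δ : ℝ) ≤ η * t * Δ := by nlinarith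
    exact le_of_mul_le_mul_right h3 hΔ0
  obtain ⟨L, L0, Ltop, Lavg, Lbad⟩ := exists_pen (univ : Finset (Fin t)) d S Δ η hη hη1 hΔ
    (fun i _ u => hd i u) hS hK
  refine ⟨3 * n / (2 * η) * Real.exp (-(η ^ 5 * n / (16 * Δ))), L, ?_⟩
  refine
    { hη := hη
      hη1 := hη1
      hn := by rw [Fintype.card_fin]; exact hn
      hΔ := hΔ
      hd := fun i _ u => hd i u
      hS := hS
      hS1 := by rw [Fintype.card_fin]; exact hS1
      hS2 := ?_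
      P0 := L0
      Ptop := Ltop
      Pavg := Lavg
      Pbad := ?_
      hz0 := by positivity
      p2 := by rw [Fintype.card_fin]; exact q2
      p3 := by rw [Fintype.card_fin]; exact q3
      p5 := q5
      p6 := by rw [Fintype.card_fin]; exact q6
      p7 := by rw [Fintype.card_fin]; exact q7 }
  · have h1 : 3 * n < Δ * (3 * n / Δ + 1) := Nat.lt_mul_div_succ _ hΔ
    calc S ≤ 3 * n := hS3
      _ ≤ Δ * (3 * n / Δ + 1) := h1.le
      _ ≤ Δ * (3 * H + 3 * n / Δ + 1) := Nat.mul_le_mul_left _ (by omega)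
      _ = (3 * H + 3 * n / Δ + 1) * Δ := Nat.mul_comm _ _
  · intro J hJ hJc hP
    rw [Fintype.card_fin] at hP
    have h1 := Lbad J hJ hJc
    have h2 : Real.exp (η ^ 5 * n / (16 * Δ)) ≤ Real.exp (η ^ 5 * S / (16 * Δ)) := by
      apply Real.exp_le_exp.mpr
      apply div_le_div_of_nonneg_right _ (by positivity)
      exact mul_le_mul_of_nonneg_left hnS (by positivity)
    have h3 : ((bad d S (univ : Finset (Fin t)).card η J).card : ℝ) *
        Real.exp (η ^ 5 * n / (16 * Δ)) ≤ 3 * n / (2 * η) := by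
      have h4 : L J ≤ 3 * n / (2 * η) := by
        rw [le_div_iff₀ (by positivity)]
        linarith
      exact ((mul_le_mul_of_nonneg_left h2 (Nat.cast_nonneg _)).trans h1).trans h4
    have h5 : Real.exp (η ^ 5 * n / (16 * Δ)) * Real.exp (-(η ^ 5 * n / (16 * Δ))) = 1 := by
      rw [← Real.exp_add]; simp
    calc ((bad d S (univ : Finset (Fin t)).card η J).card : ℝ)
        = ((bad d S (univ : Finset (Fin t)).card η J).card : ℝ) *
          Real.exp (η ^ 5 * n / (16 * Δ)) * Real.exp (-(η ^ 5 * n / (16 * Δ))) := by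
            rw [mul_assoc, h5, mul_one]
      _ ≤ 3 * n / (2 * η) * Real.exp (-(η ^ 5 * n / (16 * Δ))) :=
          mul_le_mul_of_nonneg_right h3 (Real.exp_pos _).le

end Pool.Agent.H70.SD
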