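import Pool.Agent.H70.SD.Mac
import Pool.Agent.H70.SD.Par
import Pool.Agent.H70.SD.Ext

/-!
# Assembly (project SD)
-/

set_option autoImplicit false
set_option linter.unusedSectionVars false
set_option linter.unusedVariables false

namespace Pool.Agent.H70.SD

open Finset

theorem main_small (ε : ℝ) (hε : 0 < ε) (hε1 : ε ≤ 1) :
    ∃ c : ℝ, 0 < c ∧
      ∀ (n t H D : ℕ) (E : Fin t → Finset (Fin n × Fin n)),
        0 < n →
        (∀ i, ∀ p ∈ E i, p.1 ≠ p.2) →
        (n ≤ H ∨ ∀ p : Fin n × Fin n, ((univ : Finset (Fin t)).filter fun i => p ∈ E i).card ≤ H) →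
        (D : ℝ) * (1 + Real.log H) ≤ c * n →
        (∀ v : Fin n, (1 + ε) * n ≤
          ∑ i, (((min ((E i).filter fun p => p.1 = v).card D : ℕ)) : ℝ)) →
        ∃ m : ℕ, ∃ x : Fin (m + 2) → Fin n, ∃ c : Fin (m + 2) → Fin t,
          Function.Injective x ∧ Function.Injective c ∧
          ∀ j : Fin (m + 2), (x j, x (j + 1)) ∈ E (c j) := by
  classical
  obtain ⟨c, hc, hctx⟩ := exists_ctx (ε / 16) (by positivity) (by linarith)
  refine ⟨c, hc, ?_⟩
  intro n t H D E hn hE hH hD hs
  by_contra hno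
  -- `D` is positive
  have hnr : (1 : ℝ) ≤ n := by exact_mod_cast hn
  have hD1 : 1 ≤ D := by
    by_contra hcon
    have h0 : D = 0 := by omega
    have h1 := hs ⟨0, hn⟩
    subst h0
    simp only [Nat.min_zero, Nat.cast_zero, sum_const_zero] at h1
    nlinarith
  -- `H` is positive
  obtain ⟨H', hH'1, hH', hlog⟩ : ∃ H' : ℕ, 1 ≤ H' ∧ (n ≤ H' ∨ ∀ p : Fin n × Fin n,
      ((univ : Finset (Fin t)).filter fun i => p ∈ E i).card ≤ H') ∧
      Real.log H' = Real.log H := by
    rcases Nat.eq_zero_or_pos H with h0 | h0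
    · refine ⟨1, le_rfl, ?_, by rw [h0]; simp⟩
      rcases hH with h1 | h1
      · exact Or.inl (by omega)
      · exact Or.inr fun p => (h1 p).trans (by omega)
    · exact ⟨H, h0, hH, rfl⟩
  rw [← hlog] at hD
  obtain ⟨S, hSdef⟩ : ∃ S : ℕ, S = ⌈(1 + ε) * (n : ℝ)⌉₊ := ⟨_, rfl⟩
  have hS1 : (1 + ε) * (n : ℝ) ≤ S := by rw [hSdef]; exact Nat.le_ceil _
  have hS3 : S ≤ 3 * n := by
    have h1 : ((S : ℕ) : ℝ) < (1 + ε) * (n : ℝ) + 1 := by
      rw [hSdef]
      exact Nat.ceil_lt_add_one (by positivity)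
    have h2 : ((S : ℕ) : ℝ) ≤ ((3 * n : ℕ) : ℝ) := by
      push_cast
      nlinarith
    exact_mod_cast h2
  obtain ⟨N, hNE, hND, hNS⟩ := exists_trim E D S (by
    intro v
    rw [hSdef]
    refine Nat.ceil_le.mpr ?_
    have h1 := hs v
    push_cast
    push_cast at h1
    exact h1)
  obtain ⟨z, P, ctx⟩ := hctx n t D H' hn hD1 hH'1 hD (fun i u => (N i u).card) S hND hNS
    (by
      have e : (1 + 16 * (ε / 16)) * (n : ℝ) = (1 + ε) * n := by ring
      rw [e]
      exact hS1) hS3
  refine ctx.no_system N ⟨fun i _ u _ => subset_univ _, fun i _ u _ => rfl, ?_, ?_⟩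
  · intro u _ x
    rcases hH' with h1 | h1
    · have h2 : ((univ : Finset (Fin t)).filter fun i => x ∈ N i u).card ≤ S := by
        rw [← hNS u, card_eq_sum_ones, sum_filter]
        refine sum_le_sum fun i _ => ?_
        split_ifs with h3
        · exact card_pos.mpr ⟨x, h3⟩
        · exact Nat.zero_le _
      generalize 3 * n / D = q
      omega
    · have h2 : ((univ : Finset (Fin t)).filter fun i => x ∈ N i u).card ≤
          ((univ : Finset (Fin t)).filter fun i => (u, x) ∈ E i).card :=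
        card_le_card fun i hi => by
          rw [mem_filter] at hi ⊢
          exact ⟨hi.1, hNE i u x hi.2⟩
      have h3 := h1 (u, x)
      generalize 3 * n / D = q
      omega
  · intro u _ L _ hp
    by_contra hL
    exact hno (exists_cycle E hE N hNE hp hL)

end Pool.Agent.H70.SD
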