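import Pool.Agent.H70.SD.Defs

/-!
# The penalty function (project SD)

`K = |I0|`, `n = |V|`. Put `q J u = (∑ i ∈ J, d i u) / |J|`, `lam = (η^4 / 8) K / Δ`,
`ν = 4 (η^4 / 8)^2 S / (η^3 Δ K)` and
`L J = (1 + ν)^|J| / (1 + ν)^K * ∑ u, exp (lam (S / K - q J u))`.

`L I0 = n` as `q I0 u = S / K`. Let `r = |J| > η K` (so `r - 1 ≥ η K / 2`, as `η K ≥ 2`), and fix `u`,
`q = q J u`, `y j = lam (d j u - q) / (r - 1)`; then `q J u - q (J.erase j) u = (d j u - q) / (r - 1)`, so
`exp (lam (S / K - q (J.erase j) u)) = exp (lam (S / K - q)) * exp (y j)`. Now `|y j| ≤ lam Δ / (r - 1) ≤ 1`,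
so `exp (y j) ≤ 1 + y j + (y j)^2` (`Real.abs_exp_sub_one_sub_id_le`), `∑ y j = 0` and
`∑ (y j)^2 ≤ (lam / (r - 1))^2 ∑ (d j u)^2 ≤ (lam / (r - 1))^2 Δ S ≤ 4 (η^4 / 8)^2 S / (Δ η^2) ≤ r ν`.

Bad vertices: `u` bad gives `exp (lam (S / K - q J u)) ≥ exp (lam η S / K) = exp (η^5 S / (8 Δ))`, and
`(1 + ν)^K ≤ exp (ν K) = exp (η^5 S / (16 Δ))`.
-/

set_option autoImplicit false
set_option linter.unusedSectionVars false
set_option linter.unusedVariables false

namespace Pool.Agent.H70.SD

open Finset

variable {V ι : Type} [DecidableEq V] [DecidableEq ι]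

/-- the bad vertices for a set `J` of remaining labels: `k = |I0|` -/
noncomputable def bad [Fintype V] (d : ι → V → ℕ) (S k : ℕ) (η : ℝ) (J : Finset ι) : Finset V :=
  univ.filter fun u => (∑ i ∈ J, (d i u : ℝ)) < (1 - η) * ((S : ℝ) / k) * J.card

theorem exists_pen [Fintype V] (I0 : Finset ι) (d : ι → V → ℕ) (S Δ : ℕ) (η : ℝ)
    (hη : 0 < η) (hη1 : η ≤ 1 / 16) (hΔ : 1 ≤ Δ) (hd : ∀ i ∈ I0, ∀ u, d i u ≤ Δ)
    (hS : ∀ u, ∑ i ∈ I0, d i u = S) (hK : 2 ≤ η * I0.card) :
    ∃ L : Finset ι → ℝ, (∀ J, 0 ≤ L J) ∧ L I0 = Fintype.card V ∧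
      (∀ J, J ⊆ I0 → η * I0.card < J.card → ∑ j ∈ J, L (J.erase j) ≤ J.card * L J) ∧
      (∀ J, J ⊆ I0 → η * I0.card < J.card →
        ((bad d S I0.card η J).card : ℝ) * Real.exp (η ^ 5 * S / (16 * Δ)) ≤ L J) := by
  set K : ℝ := (I0.card : ℝ) with hKdef
  have hK0 : 0 < K := by
    by_contra h
    have : η * K ≤ 0 := mul_nonpos_of_nonneg_of_nonpos hη.le (not_lt.mp h)
    linarith
  have hΔ1 : (1 : ℝ) ≤ Δ := by exact_mod_cast hΔ
  have hΔ0 : (0 : ℝ) < Δ := by linarith
  have hS0 : (0 : ℝ) ≤ S := Nat.cast_nonneg S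
  set q : Finset ι → V → ℝ := fun J u => (∑ i ∈ J, (d i u : ℝ)) / J.card with hq
  set lam : ℝ := (η ^ 4 / 8) * K / Δ with hlam
  set ν : ℝ := 4 * (η ^ 4 / 8) ^ 2 * S / (η ^ 3 * Δ * K) with hν
  have hν0 : 0 ≤ ν := by positivity
  have hlam0 : 0 ≤ lam := by positivity
  have h1ν : 0 < 1 + ν := by linarith
  clear_value q lam ν K
  refine ⟨fun J => (1 + ν) ^ J.card / (1 + ν) ^ I0.card *
    ∑ u, Real.exp (lam * (S / K - q J u)), ?_, ?_, ?_, ?_⟩
  · intro J
    positivity
  · have hqI : ∀ u, q I0 u = S / K := by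
      intro u
      simp only [hq]
      have h := hS u
      have h2 : (∑ i ∈ I0, (d i u : ℝ)) = (S : ℝ) := by exact_mod_cast h
      rw [h2, hKdef]
    simp only [hqI, sub_self, mul_zero, Real.exp_zero]
    rw [div_self (pow_ne_zero _ h1ν.ne')]
    simp
  · intro J hJ hJc
    -- r
    set r : ℝ := (J.card : ℝ) with hr
    clear_value r
    have hr2 : 2 < r := by linarith
    have hr1 : η * K / 2 ≤ r - 1 := by linarith
    have hr1' : 0 < r - 1 := by linarith
    have hJcard : 1 ≤ J.card := by
      have : (1 : ℝ) ≤ J.card := by linarith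
      exact_mod_cast this
    -- pointwise
    have key : ∀ u, ∑ j ∈ J, Real.exp (lam * (S / K - q (J.erase j) u)) ≤
        r * (1 + ν) * Real.exp (lam * (S / K - q J u)) := by
      intro u
      have hsum : ∑ i ∈ J, (d i u : ℝ) = r * q J u := by
        simp only [hq]
        rw [← hr]
        have hr0 : r ≠ 0 := by linarith
        field_simp
      have hq0 : 0 ≤ q J u := by
        simp only [hq]
        positivity
      have hdJ : ∀ j ∈ J, (d j u : ℝ) ≤ Δ := by
        intro j hj
        exact_mod_cast hd j (hJ hj) u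
      have hqΔ : q J u ≤ Δ := by
        have h1 : ∑ i ∈ J, (d i u : ℝ) ≤ r * Δ := by
          calc ∑ i ∈ J, (d i u : ℝ) ≤ ∑ i ∈ J, (Δ : ℝ) := Finset.sum_le_sum hdJ
            _ = r * Δ := by rw [Finset.sum_const, nsmul_eq_mul, hr]
        rw [hsum] at h1
        exact le_of_mul_le_mul_left h1 (by linarith)
      obtain ⟨y, hy⟩ : ∃ y : ι → ℝ, ∀ j, y j = lam * ((d j u : ℝ) - q J u) / (r - 1) :=
        ⟨_, fun _ => rfl⟩
      have hqe : ∀ j ∈ J, q J u - q (J.erase j) u = ((d j u : ℝ) - q J u) / (r - 1) := by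
        intro j hj
        have hc : ((J.erase j).card : ℝ) = r - 1 := by
          rw [Finset.card_erase_of_mem hj, Nat.cast_sub hJcard, Nat.cast_one, hr]
        have hse : ∑ i ∈ J.erase j, (d i u : ℝ) = r * q J u - d j u := by
          rw [← hsum, ← Finset.add_sum_erase J _ hj]
          ring
        have : q (J.erase j) u = (r * q J u - d j u) / (r - 1) := by
          simp only [hq] at hse ⊢
          rw [hse, hc]
        rw [this]
        field_simp
        ring
      have hexp : ∀ j ∈ J, Real.exp (lam * (S / K - q (J.erase j) u)) =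
          Real.exp (lam * (S / K - q J u)) * Real.exp (y j) := by
        intro j hj
        rw [← Real.exp_add]
        congr 1
        simp only [hy]
        rw [mul_div_assoc, ← hqe j hj]
        ring
      have hy1 : ∀ j ∈ J, |y j| ≤ 1 := by
        intro j hj
        have h1 : |(d j u : ℝ) - q J u| ≤ Δ := by
          rw [abs_le]
          constructor
          · have : (0 : ℝ) ≤ d j u := Nat.cast_nonneg _
            linarith
          · have := hdJ j hj
            linarith
        have h2 : |y j| ≤ lam * Δ / (r - 1) := by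
          simp only [hy]
          rw [abs_div, abs_mul, abs_of_nonneg hlam0, abs_of_pos hr1']
          gcongr
        have h3 : lam * Δ = η ^ 4 / 8 * K := by
          simp only [hlam]
          field_simp
        have h4 : lam * Δ / (r - 1) ≤ 1 := by
          rw [div_le_one hr1', h3]
          have h5 : η ^ 3 ≤ 1 := pow_le_one₀ hη.le (by linarith)
          have h6 : η ^ 4 / 8 * K = (η * K / 2) * (η ^ 3 / 4) := by ring
          rw [h6]
          calc (η * K / 2) * (η ^ 3 / 4) ≤ (η * K / 2) * 1 := by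
                apply mul_le_mul_of_nonneg_left _ (by positivity)
                linarith
            _ ≤ r - 1 := by linarith
        linarith
      have hle : ∀ j ∈ J, Real.exp (y j) ≤ 1 + y j + y j ^ 2 := by
        intro j hj
        have h := Real.abs_exp_sub_one_sub_id_le (hy1 j hj)
        have h' := (abs_le.mp h).2
        linarith
      have hsy : ∑ j ∈ J, y j = 0 := by
        simp only [hy]
        rw [← Finset.sum_div, ← Finset.mul_sum, Finset.sum_sub_distrib, hsum, Finset.sum_const,
          nsmul_eq_mul, ← hr, sub_self, mul_zero, zero_div]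
      have hsy2 : ∑ j ∈ J, y j ^ 2 ≤ r * ν := by
        have h1 : ∑ j ∈ J, ((d j u : ℝ) - q J u) ^ 2 ≤ Δ * S := by
          have h2 : ∑ j ∈ J, ((d j u : ℝ) - q J u) ^ 2 =
              ∑ j ∈ J, (d j u : ℝ) ^ 2 - r * q J u ^ 2 := by
            have : ∀ j ∈ J, ((d j u : ℝ) - q J u) ^ 2 =
                (d j u : ℝ) ^ 2 - 2 * q J u * d j u + q J u ^ 2 := by
              intro j _
              ring
            rw [Finset.sum_congr rfl this, Finset.sum_add_distrib, Finset.sum_sub_distrib,
              ← Finset.mul_sum, hsum]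
            simp only [Finset.sum_const, nsmul_eq_mul, ← hr]
            ring
          have h3 : ∑ j ∈ J, (d j u : ℝ) ^ 2 ≤ ∑ j ∈ J, Δ * (d j u : ℝ) := by
            apply Finset.sum_le_sum
            intro j hj
            have h4 := hdJ j hj
            have h5 : (0 : ℝ) ≤ d j u := Nat.cast_nonneg _
            nlinarith
          have h6 : ∑ j ∈ J, (d j u : ℝ) ≤ S := by
            have h7 : ∑ j ∈ J, d j u ≤ ∑ j ∈ I0, d j u :=
              Finset.sum_le_sum_of_subset hJ
            rw [hS u] at h7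
            exact_mod_cast h7
          rw [← Finset.mul_sum] at h3
          have h8 : 0 ≤ r * q J u ^ 2 := by positivity
          rw [h2]
          have h9 : Δ * ∑ j ∈ J, (d j u : ℝ) ≤ Δ * S :=
            mul_le_mul_of_nonneg_left h6 hΔ0.le
          linarith
        have h2 : ∑ j ∈ J, y j ^ 2 = (lam / (r - 1)) ^ 2 *
            ∑ j ∈ J, ((d j u : ℝ) - q J u) ^ 2 := by
          rw [Finset.mul_sum]
          apply Finset.sum_congr rfl
          intro j _
          simp only [hy]
          ring
        rw [h2]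
        have h3 : (lam / (r - 1)) ^ 2 ≤ (lam / (η * K / 2)) ^ 2 := by
          apply pow_le_pow_left₀ (by positivity)
          apply div_le_div_of_nonneg_left hlam0 (by positivity) hr1
        have h4 : (lam / (η * K / 2)) ^ 2 * (Δ * S) = (η * K) * ν := by
          simp only [hlam, hν]
          field_simp
          ring
        calc (lam / (r - 1)) ^ 2 * ∑ j ∈ J, ((d j u : ℝ) - q J u) ^ 2
            ≤ (lam / (η * K / 2)) ^ 2 * (Δ * S) := by
              apply mul_le_mul h3 h1 (Finset.sum_nonneg fun j _ => sq_nonneg _) (by positivity)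
          _ = (η * K) * ν := h4
          _ ≤ r * ν := mul_le_mul_of_nonneg_right hJc.le hν0
      calc ∑ j ∈ J, Real.exp (lam * (S / K - q (J.erase j) u))
          = Real.exp (lam * (S / K - q J u)) * ∑ j ∈ J, Real.exp (y j) := by
            rw [Finset.mul_sum]
            exact Finset.sum_congr rfl hexp
        _ ≤ Real.exp (lam * (S / K - q J u)) * (r * (1 + ν)) := by
            apply mul_le_mul_of_nonneg_left _ (Real.exp_pos _).le
            calc ∑ j ∈ J, Real.exp (y j) ≤ ∑ j ∈ J, (1 + y j + y j ^ 2) :=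
                  Finset.sum_le_sum hle
              _ = r + ∑ j ∈ J, y j + ∑ j ∈ J, y j ^ 2 := by
                  rw [Finset.sum_add_distrib, Finset.sum_add_distrib, Finset.sum_const,
                    nsmul_eq_mul, mul_one, hr]
              _ ≤ r * (1 + ν) := by
                  rw [hsy]
                  linarith
        _ = r * (1 + ν) * Real.exp (lam * (S / K - q J u)) := by ring
    have hstep : ∀ j ∈ J, (1 + ν) ^ (J.erase j).card / (1 + ν) ^ I0.card *
        ∑ u, Real.exp (lam * (S / K - q (J.erase j) u)) =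
        (1 + ν) ^ (J.card - 1) / (1 + ν) ^ I0.card *
        ∑ u, Real.exp (lam * (S / K - q (J.erase j) u)) := by
      intro j hj
      rw [Finset.card_erase_of_mem hj]
    rw [Finset.sum_congr rfl hstep, ← Finset.mul_sum, Finset.sum_comm]
    have h1 : ∑ u, ∑ j ∈ J, Real.exp (lam * (S / K - q (J.erase j) u)) ≤
        ∑ u, r * (1 + ν) * Real.exp (lam * (S / K - q J u)) :=
      Finset.sum_le_sum fun u _ => key u
    rw [← Finset.mul_sum] at h1
    have h2 : (1 + ν) ^ J.card = (1 + ν) ^ (J.card - 1) * (1 + ν) := by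
      rw [← pow_succ]
      congr 1
      omega
    calc (1 + ν) ^ (J.card - 1) / (1 + ν) ^ I0.card *
          ∑ u, ∑ j ∈ J, Real.exp (lam * (S / K - q (J.erase j) u))
        ≤ (1 + ν) ^ (J.card - 1) / (1 + ν) ^ I0.card *
          (r * (1 + ν) * ∑ u, Real.exp (lam * (S / K - q J u))) :=
          mul_le_mul_of_nonneg_left h1 (by positivity)
      _ = r * ((1 + ν) ^ J.card / (1 + ν) ^ I0.card *
          ∑ u, Real.exp (lam * (S / K - q J u))) := by
          rw [h2]
          ring
  · intro J hJ hJc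
    set r : ℝ := (J.card : ℝ) with hr
    clear_value r
    have hr2 : 2 < r := by linarith
    have hbadu : ∀ u ∈ bad d S I0.card η J, Real.exp (η ^ 5 * S / (8 * Δ)) ≤
        Real.exp (lam * (S / K - q J u)) := by
      intro u hu
      apply Real.exp_le_exp.mpr
      have h1 : (∑ i ∈ J, (d i u : ℝ)) < (1 - η) * ((S : ℝ) / K) * r := by
        have h0 := (Finset.mem_filter.mp hu).2
        rwa [← hKdef, ← hr] at h0
      have h2 : q J u ≤ (1 - η) * ((S : ℝ) / K) := by
        simp only [hq]
        rw [← hr, div_le_iff₀ (by linarith)]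
        exact h1.le
      have h3 : η * (S / K) ≤ S / K - q J u := by
        have : (1 - η) * ((S : ℝ) / K) = S / K - η * (S / K) := by ring
        linarith
      have h4 : η ^ 5 * S / (8 * Δ) = lam * (η * (S / K)) := by
        simp only [hlam]
        field_simp
      rw [h4]
      exact mul_le_mul_of_nonneg_left h3 hlam0
    have hsum : ((bad d S I0.card η J).card : ℝ) * Real.exp (η ^ 5 * S / (8 * Δ)) ≤
        ∑ u, Real.exp (lam * (S / K - q J u)) := by
      calc ((bad d S I0.card η J).card : ℝ) * Real.exp (η ^ 5 * S / (8 * Δ))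
          = ∑ u ∈ bad d S I0.card η J, Real.exp (η ^ 5 * S / (8 * Δ)) := by
            rw [Finset.sum_const, nsmul_eq_mul]
        _ ≤ ∑ u ∈ bad d S I0.card η J, Real.exp (lam * (S / K - q J u)) :=
            Finset.sum_le_sum hbadu
        _ ≤ ∑ u, Real.exp (lam * (S / K - q J u)) :=
            Finset.sum_le_sum_of_subset_of_nonneg (Finset.subset_univ _)
              (fun u _ _ => (Real.exp_pos _).le)
    have hpow : (1 + ν) ^ I0.card ≤ Real.exp (η ^ 5 * S / (16 * Δ)) := by
      have h1 : 1 + ν ≤ Real.exp ν := by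
        have := Real.add_one_le_exp ν
        linarith
      calc (1 + ν) ^ I0.card ≤ Real.exp ν ^ I0.card := pow_le_pow_left₀ h1ν.le h1 _
        _ = Real.exp (η ^ 5 * S / (16 * Δ)) := by
            rw [← Real.exp_nat_mul]
            congr 1
            rw [← hKdef]
            simp only [hν]
            field_simp
            ring
    have hpos : 0 < (1 + ν) ^ I0.card := pow_pos h1ν _
    have hfac : Real.exp (-(η ^ 5 * S / (16 * Δ))) ≤ (1 + ν) ^ J.card / (1 + ν) ^ I0.card := by
      rw [Real.exp_neg, le_div_iff₀ hpos]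
      have h1 : (Real.exp (η ^ 5 * S / (16 * Δ)))⁻¹ * (1 + ν) ^ I0.card ≤ 1 := by
        rw [inv_mul_le_iff₀ (Real.exp_pos _), mul_one]
        exact hpow
      have h2 : 1 ≤ (1 + ν) ^ J.card := one_le_pow₀ (by linarith)
      linarith
    have hsplit : Real.exp (η ^ 5 * S / (16 * Δ)) =
        Real.exp (-(η ^ 5 * S / (16 * Δ))) * Real.exp (η ^ 5 * S / (8 * Δ)) := by
      rw [← Real.exp_add]
      congr 1
      field_simp
      ring
    calc ((bad d S I0.card η J).card : ℝ) * Real.exp (η ^ 5 * S / (16 * Δ))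
        = Real.exp (-(η ^ 5 * S / (16 * Δ))) *
          (((bad d S I0.card η J).card : ℝ) * Real.exp (η ^ 5 * S / (8 * Δ))) := by
          rw [hsplit]
          ring
      _ ≤ (1 + ν) ^ J.card / (1 + ν) ^ I0.card * ∑ u, Real.exp (lam * (S / K - q J u)) := by
          apply mul_le_mul hfac hsum (by positivity) (by positivity)

end Pool.Agent.H70.SD
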