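import Pool.Agent.H70.SD.Ctx

/-!
# Phase A (project SD)

Among the pairs `(A, B)` satisfying the first four conclusions (`(∅, {v})` is one of them, as
`(1 - η) * 1 ≥ 0`) take one with `|A|` maximal. Suppose that it violates the last conclusion and put
`J = I \ A`, `Z = bad J` (`|Z| ≤ z` by `Pbad`). For `v ∈ X \ Z` take `f v ∈ B v` from `Ctx.grow`
(`v ∈ B v \ Z`). With `Q0 = S / K`:
`∑_{v ∈ X \ Z} ∑_{i ∈ J} |N i (f v) \ B v| ≥ (|X| - z) (1 - η) Q0 |J| - 3.36 ∑ |B v| - m z |X|`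
`≥ |X| Q0 |J| ((1 - η / 4) (1 - η) - η / 2) ≥ |X| Q0 |J| (1 - 2 η)`
(as `z ≤ (η / 4) |X|` by `p3`, `∑ |B v| < 64 Δ / η^2 |X|` and `Ctx.growth`). By `Ctx.pick` with
`g j = (1 - η) / |X| * ∑_{v ∈ X \ Z} |N j (f v) \ B v|`, `G = (1 - 4 η) Q0` there is a label `j ∈ J`
such that `(insert j A, B')`, `B' v = B v ∪ N j (f v)` for `v ∈ X \ Z` and `B' v = B v` otherwise,
satisfies the first four conclusions as well (`I \ insert j A = J.erase j`; the sum of the `|B' v|` is
at most the old one, which is `< 64 Δ / η^2 |X|`, plus `Δ |X|`). Contradiction.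
-/

set_option autoImplicit false
set_option linter.unusedSectionVars false
set_option linter.unusedVariables false

namespace Pool.Agent.H70.SD

open Finset

variable {V ι : Type} [Fintype V] [DecidableEq V] [DecidableEq ι]
variable {I0 : Finset ι} {d : ι → V → ℕ} {S Δ m : ℕ} {η z : ℝ} {P : Finset ι → ℝ}

/-- the first four conclusions of phase A for the label set `A` -/
def PhAGood (N : ι → V → Finset V) (X : Finset V) (I I0 : Finset ι) (S Δ : ℕ) (η : ℝ)
    (P : Finset ι → ℝ) (A : Finset ι) (B : V → Finset V) : Prop :=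
  Balls N X A B ∧ ∑ v ∈ X, ((B v).card : ℝ) ≤ (64 * Δ / η ^ 2 + Δ) * X.card ∧
      -(2 * η) * P I ≤ (1 - η) * ((∑ v ∈ X, ((B v).card : ℝ)) / X.card) -
        (1 - 4 * η) * ((S : ℝ) / I0.card) * A.card - 2 * η * P (I \ A)

theorem Ctx.phaseA_step (c : Ctx I0 d S Δ m η z P) {N : ι → V → Finset V} {X : Finset V}
    {I : Finset ι} (hI : I ⊆ I0) (h : Sys d m N X I) (hX : η / 8 * Fintype.card V ≤ X.card)
    {A : Finset ι} {B : V → Finset V} (hA : A ⊆ I) (hG : PhAGood N X I I0 S Δ η P A B)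
    (h1 : η * I0.card < ((I \ A).card : ℝ))
    (h2 : ∑ v ∈ X, ((B v).card : ℝ) < 64 * Δ / η ^ 2 * X.card)
    (h3 : 2 * η * P (I \ A) < 3 * (Fintype.card V : ℝ)) :
    ∃ j ∈ I \ A, ∃ B' : V → Finset V, PhAGood N X I I0 S Δ η P (insert j A) B' := by
  classical
  obtain ⟨hB, hB2, hB3⟩ := hG
  set J := I \ A with hJ
  have hJI : J ⊆ I := sdiff_subset
  have hJ0 : J ⊆ I0 := hJI.trans hI
  have hη := c.hη
  have hη1 := c.hη1
  have hn := c.npos
  have hΔ := c.Δpos
  have hXpos : (0 : ℝ) < X.card := lt_of_lt_of_le (by positivity) hX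
  set Z := bad d S I0.card η J with hZ
  have hZc : ((Z.card : ℕ) : ℝ) ≤ z := c.Pbad J hJ0 h1 h3
  have hSys : Sys d m N X J := h.mono hJI
  set Q0 : ℝ := (S : ℝ) / I0.card with hQ0
  have hQ0pos : 0 < Q0 := div_pos c.Spos c.Kpos
  have hJpos : (0 : ℝ) < J.card := lt_of_le_of_lt (mul_nonneg hη.le c.Kpos.le) h1
  have hgrow : ∀ v ∈ X \ Z, ∃ u ∈ B v, (1 - η) * Q0 * J.card - 84 / 25 * ((B v).card : ℝ) - m * z ≤
      ∑ i ∈ J, ((N i u \ B v).card : ℝ) := by
    intro v hv
    rw [mem_sdiff] at hv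
    obtain ⟨hv1, hv2, _⟩ := hB v hv.1
    exact c.grow hSys hv2 ⟨v, mem_sdiff.mpr ⟨hv1, hv.2⟩⟩ hZc
  choose! f hf1 hf2 using hgrow
  set W := X \ Z with hW
  have hWX : W ⊆ X := sdiff_subset
  have hWc : (X.card : ℝ) - z ≤ W.card := by
    have h4 : X.card ≤ W.card + Z.card := by
      have := card_le_card (show X ⊆ W ∪ Z from fun x hx => by
        by_cases hxZ : x ∈ Z
        · exact mem_union_right _ hxZ
        · exact mem_union_left _ (mem_sdiff.mpr ⟨hx, hxZ⟩))
      exact this.trans (card_union_le _ _)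
    have h5 : (X.card : ℝ) ≤ W.card + Z.card := by exact_mod_cast h4
    linarith
  have hWc2 : (W.card : ℝ) ≤ X.card := by exact_mod_cast card_le_card hWX
  have hzX : z ≤ η / 4 * X.card := by
    have := c.p3
    nlinarith [mul_le_mul_of_nonneg_left hX hη.le]
  have hgr := c.growth h1
  rw [← hQ0] at hgr
  have hz0 := c.hz0
  have hm0 : (0 : ℝ) ≤ m := Nat.cast_nonneg m
  -- the double sum
  have hsum : X.card * Q0 * J.card * (1 - 2 * η) ≤
      ∑ v ∈ W, ∑ i ∈ J, ((N i (f v) \ B v).card : ℝ) := by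
    have h4 : ∑ v ∈ W, ((1 - η) * Q0 * J.card - 84 / 25 * ((B v).card : ℝ) - m * z) ≤
        ∑ v ∈ W, ∑ i ∈ J, ((N i (f v) \ B v).card : ℝ) := sum_le_sum fun v hv => hf2 v hv
    refine le_trans ?_ h4
    have h5 : ∑ v ∈ W, ((1 - η) * Q0 * J.card - 84 / 25 * ((B v).card : ℝ) - m * z) =
        W.card * ((1 - η) * Q0 * J.card) - 84 / 25 * ∑ v ∈ W, ((B v).card : ℝ) - W.card * (m * z) := by
      rw [sum_sub_distrib, sum_sub_distrib, sum_const, sum_const, mul_sum, nsmul_eq_mul, nsmul_eq_mul]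
    rw [h5]
    have h6 : ∑ v ∈ W, ((B v).card : ℝ) ≤ ∑ v ∈ X, ((B v).card : ℝ) :=
      sum_le_sum_of_subset_of_nonneg hWX fun _ _ _ => Nat.cast_nonneg _
    have h7 : (W.card : ℝ) * (m * z) ≤ X.card * (m * z) :=
      mul_le_mul_of_nonneg_right hWc2 (mul_nonneg hm0 hz0)
    have h8 : (X.card - z) * ((1 - η) * Q0 * J.card) ≤ W.card * ((1 - η) * Q0 * J.card) := by
      apply mul_le_mul_of_nonneg_right hWc
      have : 0 ≤ 1 - η := by linarith
      positivity
    have h9 : (X.card - η / 4 * X.card) * ((1 - η) * Q0 * J.card) ≤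
        (X.card - z) * ((1 - η) * Q0 * J.card) := by
      apply mul_le_mul_of_nonneg_right (by linarith)
      have : 0 ≤ 1 - η := by linarith
      positivity
    have h10 : (84 / 25 * (64 * Δ / η ^ 2) + m * z) * X.card ≤ (η / 2 * Q0 * J.card) * X.card :=
      mul_le_mul_of_nonneg_right hgr hXpos.le
    have h11 : 0 ≤ X.card * (Q0 * J.card) := by positivity
    nlinarith [mul_nonneg hη.le h11, mul_nonneg (mul_nonneg hη.le hη.le) h11]
  -- the choice of the label
  obtain ⟨j, hj, hpick⟩ := c.pick hJ0 h1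
    (fun j => (1 - η) / X.card * ∑ v ∈ W, ((N j (f v) \ B v).card : ℝ)) ((1 - 4 * η) * Q0) (by
      rw [← mul_sum, sum_comm]
      have h4 : (1 - 4 * η) * Q0 * J.card ≤ (1 - η) / X.card * (X.card * Q0 * J.card * (1 - 2 * η)) := by
        have h5 : (1 - η) / X.card * (X.card * Q0 * J.card * (1 - 2 * η)) =
            (1 - η) * (1 - 2 * η) * (Q0 * J.card) := by
          field_simp
        rw [h5]
        have h6 : 0 ≤ Q0 * J.card := by positivity
        nlinarith [mul_nonneg hη.le h6, mul_nonneg (mul_nonneg hη.le hη.le) h6]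
      refine h4.trans (mul_le_mul_of_nonneg_left hsum ?_)
      have : 0 ≤ 1 - η := by linarith
      positivity)
  have hjI : j ∈ I := hJI hj
  have hjA : j ∉ A := (mem_sdiff.mp hj).2
  refine ⟨j, hj, fun v => if v ∈ W then B v ∪ N j (f v) else B v,
    hB.grow h.sub hjI hjA W f hf1, ?_, ?_⟩
  all_goals
    have hcard : ∑ v ∈ X, (((if v ∈ W then B v ∪ N j (f v) else B v).card : ℕ) : ℝ) =
        ∑ v ∈ X, ((B v).card : ℝ) + ∑ v ∈ W, ((N j (f v) \ B v).card : ℝ) := by
      have h4 : ∑ v ∈ W, ((N j (f v) \ B v).card : ℝ) =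
          ∑ v ∈ X, if v ∈ W then ((N j (f v) \ B v).card : ℝ) else 0 := by
        rw [← sum_filter]
        congr 1
        ext v
        simp only [mem_filter]
        exact ⟨fun hv => ⟨hWX hv, hv⟩, fun hv => hv.2⟩
      rw [h4, ← sum_add_distrib]
      refine sum_congr rfl fun v _ => ?_
      by_cases hv : v ∈ W
      · simp only [hv, if_true]
        rw [← union_sdiff_self_eq_union, card_union_of_disjoint disjoint_sdiff]
        push_cast
        ring
      · simp only [hv, if_false, add_zero]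
  · rw [hcard]
    have h4 : ∑ v ∈ W, ((N j (f v) \ B v).card : ℝ) ≤ ∑ v ∈ W, (Δ : ℝ) := by
      refine sum_le_sum fun v hv => ?_
      have h5 : (N j (f v) \ B v).card ≤ Δ := by
        refine (card_le_card sdiff_subset).trans ?_
        rw [h.card j hjI (f v) ((hB v (hWX hv)).2.1 (hf1 v hv))]
        exact c.hd j (hI hjI) _
      exact_mod_cast h5
    rw [sum_const, nsmul_eq_mul] at h4
    have h6 : (W.card : ℝ) * Δ ≤ X.card * Δ := mul_le_mul_of_nonneg_right hWc2 (by linarith)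
    nlinarith
  · rw [hcard]
    have h4 : I \ insert j A = J.erase j := by
      rw [hJ]
      ext x
      simp only [mem_sdiff, mem_insert, mem_erase, not_or]
      tauto
    rw [h4, card_insert_of_notMem hjA]
    push_cast
    rw [add_div]
    have h5 : (1 - η) / (X.card : ℝ) * ∑ v ∈ W, ((N j (f v) \ B v).card : ℝ) =
        (1 - η) * ((∑ v ∈ W, ((N j (f v) \ B v).card : ℝ)) / X.card) := by ring
    rw [h5] at hpick
    rw [← hQ0]
    linarith

theorem Ctx.phaseA (c : Ctx I0 d S Δ m η z P) {N : ι → V → Finset V} {X : Finset V}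
    {I : Finset ι} (hI : I ⊆ I0) (h : Sys d m N X I) (hX : η / 8 * Fintype.card V ≤ X.card) :
    ∃ (A : Finset ι) (B : V → Finset V), A ⊆ I ∧ Balls N X A B ∧
      ∑ v ∈ X, ((B v).card : ℝ) ≤ (64 * Δ / η ^ 2 + Δ) * X.card ∧
      -(2 * η) * P I ≤ (1 - η) * ((∑ v ∈ X, ((B v).card : ℝ)) / X.card) -
        (1 - 4 * η) * ((S : ℝ) / I0.card) * A.card - 2 * η * P (I \ A) ∧
      (((I \ A).card : ℝ) ≤ η * I0.card ∨
        64 * Δ / η ^ 2 * X.card ≤ ∑ v ∈ X, ((B v).card : ℝ) ∨
        3 * (Fintype.card V : ℝ) ≤ 2 * η * P (I \ A)) := by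
  classical
  have hη := c.hη
  have hη1 := c.hη1
  have hn := c.npos
  have hΔ := c.Δpos
  have hXpos : (0 : ℝ) < X.card := lt_of_lt_of_le (by positivity) hX
  set F := I.powerset.filter fun A => ∃ B : V → Finset V, PhAGood N X I I0 S Δ η P A B with hF
  have hne : F.Nonempty := by
    refine ⟨∅, mem_filter.mpr ⟨empty_mem_powerset I, fun v => {v}, balls_self N X, ?_, ?_⟩⟩
    · simp only [card_singleton, Nat.cast_one, sum_const, nsmul_eq_mul, mul_one]
      have h4 : (0 : ℝ) ≤ 64 * Δ / η ^ 2 := by positivity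
      nlinarith [mul_nonneg h4 hXpos.le]
    · simp only [card_singleton, Nat.cast_one, sum_const, nsmul_eq_mul, mul_one, card_empty,
        Nat.cast_zero, mul_zero, sub_zero, sdiff_empty]
      rw [div_self hXpos.ne']
      nlinarith
  obtain ⟨A, hAF, hmax⟩ := exists_max_image F card hne
  obtain ⟨hAI, B, hG⟩ := mem_filter.mp hAF
  rw [mem_powerset] at hAI
  refine ⟨A, B, hAI, hG.1, hG.2.1, hG.2.2, ?_⟩
  by_contra hcon
  rw [not_or, not_or] at hcon
  obtain ⟨h1, h2, h3⟩ := hcon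
  rw [not_le] at h1 h2 h3
  obtain ⟨j, hj, B', hG'⟩ := c.phaseA_step hI h hX hAI hG h1 h2 h3
  have hj' := mem_sdiff.mp hj
  have h4 := hmax (insert j A) (mem_filter.mpr ⟨mem_powerset.mpr
    (insert_subset_iff.mpr ⟨hj'.1, hAI⟩), B', hG'⟩)
  rw [card_insert_of_notMem hj'.2] at h4
  omega

end Pool.Agent.H70.SD
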